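import Pool.Agent.H73.BA.Master
import Pool.Agent.H73.AY.FamB

/-! Chains of equations in a box form good families. -/

namespace Pool.Agent.H73.BA

open Finset Matrix Pool.Agent.H73.QA Pool.Agent.H73.AD Pool.Agent.H73.AZ Pool.Agent.H73.AY

set_option linter.unusedSectionVars false
set_option linter.deprecated false

variable {n k m : ℕ} {Y : Type} [Fintype Y] [DecidableEq Y] {p q r : ℕ}
variable {G : Fin m → Clause n k} {α κ Λ ε δ ν t ρ σ β R cu θ : ℝ} {J : ℕ}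

/-- few low eigenvalues of the averaged Hamiltonian imply few low eigenvalues for the whole
formula -/
theorem few_basB (hS : Std ε δ ν t r G) (w : Fin p → List (Letter n m Y))
    (hw : ∀ i, ∀ l ∈ w i, l.Ok t r G) (hr : ∀ i, (w i).length ≤ r) (a : Fin p → ℝ)
    (ha : ∑ i, |a i| ≤ Λ) (hs : Λ * (r * 2 ^ (r + 1)) * ε ≤ κ / 8) {e : ℝ}
    (h : Few α (3 * κ / 8) e (Ham Letter.av w a)) :
    Few α (κ / 4) e (Ham (bas G) w a) := by
  have h1 : Few α (κ / 2) (e - κ / 8) (Ham Letter.av w a) := by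
    obtain ⟨hA, hc⟩ := h
    refine ⟨hA, le_trans ?_ hc⟩
    exact_mod_cast card_le_card fun i hi => by
      simp only [mem_filter, mem_univ, true_and] at hi ⊢
      linarith
  obtain ⟨hA, hc⟩ := few_bas hS w hw hr a ha hs h1
  refine ⟨hA, le_trans ?_ hc⟩
  exact_mod_cast card_le_card fun i hi => by
    simp only [mem_filter, mem_univ, true_and] at hi ⊢
    linarith

/-- chains of solutions of `B z (v j z) - f z (v j z) = d z (v (j + 1) z) + u j z`, where `B z` is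
close to a fixed operator `M` -/
theorem famMC (hC : CB κ Λ δ ν ρ σ β R n k J r) {M : Op n Y}
    (hR : (2 : ℝ) ^ (α * n) ≤ R ^ 2)
    (hfew : ∃ hA : M.IsHermitian,
      ((univ.filter fun i => hA.eigenvalues i < θ).card : ℝ) ≤ 2 ^ (α * n))
    {Z : Type} [Fintype Z] (ζ : Z → Cube n) (hζ : Function.Injective ζ)
    (B : Z → Sp n Y →ₗ[ℂ] Sp n Y)
    (hB : GoodOp β (16 ^ r * (4 * Λ + 12 * ρ)) fun z => lin M - B z)
    (hBs : ∀ z x, ‖(lin M - B z) x‖ ≤ σ * ‖x‖)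
    (f d : Z → ℝ) (f0 : ℝ) (hf : ∀ z, |f z - f0| ≤ σ) (hd : ∀ z, |d z| ≤ σ)
    (hθ : κ / 4 ≤ θ - f0)
    (v u : ℕ → Z → Sp n Y) (hv : ∀ j z, ‖v j z‖ ≤ 1) (hu : ∀ j, Good β cu (u j))
    (heq : ∀ j z, B z (v j z) - (f z : ℂ) • v j z = (d z : ℂ) • v (j + 1) z + u j z) (j : ℕ) :
    Good β ((R + (κ / 4)⁻¹ * cu) * geo κ Λ ρ σ r J + 1) (v j) := by
  have hκ4 : 0 < κ / 4 := by linarith [hC.κ0]
  obtain ⟨hA, hfew⟩ := hfew
  obtain ⟨S, hS, hdec⟩ := spec (κ := θ) (b := 1) (s := -f0) hA hκ4 (fun i hi => by linarith)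
  have hcard : Real.sqrt (Fintype.card Z) ≤ Real.sqrt (2 ^ n) := by
    refine Real.sqrt_le_sqrt ?_
    have h1 := Fintype.card_le_of_injective ζ hζ
    have h2 : Fintype.card (Cube n) = 2 ^ n := by simp
    rw [h2] at h1
    exact_mod_cast h1
  refine masterC (β := β) (σ := σ) (K0 := 16 ^ r * (4 * Λ + 12 * ρ)) (cu := cu) (b0 := 1)
    (s0 := -f0) (r := R) hC.β0.le hκ4 hC.σ0
    (lin M) S hS (univ.filter fun i => hA.eigenvalues i < θ)
    (fun i => hA.eigenvectorBasis i) (fun i => (hA.eigenvectorBasis.orthonormal.1 i).le)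
    (fun x hx => bessel hA _ x hx) hC.R0 (hfew.trans hR) hdec
    (fun z => -f z) d (fun z => ?_) hd (fun z => lin M - B z) hB hBs
    v u hv hu (fun j z => ?_) J ?_ j
  · have h1 := hf z
    rw [abs_sub_comm] at h1
    have h2 : -f z - -f0 = f0 - f z := by ring
    rw [h2]
    exact h1
  · have h1 := heq j z
    rw [← h1, LinearMap.sub_apply]
    push_cast
    module
  · refine le_trans ?_ hC.iter
    refine mul_le_mul_of_nonneg_left hcard ?_
    have := hC.σ0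
    positivity

/-- flattened Hamiltonians in a box -/
theorem famFC (hC : CB κ Λ δ ν ρ σ β R n k J r) (hS : Std ε δ ν t r G)
    (w : Fin p → List (Letter n m Y)) (hw : ∀ i, ∀ l ∈ w i, l.Ok t r G)
    (hr : ∀ i, (w i).length ≤ r) (a0 : Fin p → ℝ)
    (ha0 : ∑ i, |a0 i| ≤ Λ) (hR : (2 : ℝ) ^ (α * n) ≤ R ^ 2)
    (hfew : ∃ hA : (Ham (bas G) w a0).IsHermitian,
      ((univ.filter fun i => hA.eigenvalues i < θ).card : ℝ) ≤ 2 ^ (α * n))
    {Z : Type} [Fintype Z] (ζ : Z → Cube n) (hζ : Function.Injective ζ)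
    (a : Z → Fin p → ℝ) (ha : ∀ z, ∑ i, |a z i| ≤ Λ) (b : Fin p → ℝ) (hb0 : ∀ i, 0 ≤ b i)
    (hb : ∑ i, b i ≤ 2 * ρ) (hc : ∀ z i, |a z i - a0 i| ≤ b i)
    (f d : Z → ℝ) (f0 : ℝ) (hf : ∀ z, |f z - f0| ≤ σ) (hd : ∀ z, |d z| ≤ σ)
    (hθ : κ / 4 ≤ θ - f0)
    (v u : ℕ → Z → Sp n Y) (hv : ∀ j z, ‖v j z‖ ≤ 1) (hu : ∀ j, Good β cu (u j))
    (heq : ∀ j z, lin (Ham (Letter.flt G δ (ζ z)) w (a z)) (v j z) - (f z : ℂ) • v j z =
      (d z : ℂ) • v (j + 1) z + u j z) (j : ℕ) :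
    Good β ((R + (κ / 4)⁻¹ * cu) * geo κ Λ ρ σ r J + 1) (v j) :=
  famMC hC hR hfew ζ hζ
    (fun z => lin (Ham (Letter.flt G δ (ζ z)) w (a z)))
    (goodOp_hamB hS hC.β0.le ζ (ball_sub hC.ball ζ hζ) w hw hr a0 a b hb0 hb ha0 hc)
    (fun z x => (norm_pertB hS (ζ z) w hw hr a0 (a z) b hb (ha z) (hc z)
      x).trans (mul_le_mul_of_nonneg_right hC.tot (norm_nonneg _))) f d f0 hf hd hθ v u hv hu heq j

end Pool.Agent.H73.BA
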