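import Pool.Agent.H73.BA.Flat
import Pool.Agent.H73.BA.Fam
import Pool.Agent.H73.AY.Bad

/-! Counting assignments which are not good. -/

namespace Pool.Agent.H73.AY.BI

open Finset Matrix Pool.Agent.H73.QA Pool.Agent.H73.AD Pool.Agent.H73.AZ
open Pool.Agent.H73.AX (GoodP GoodOpP near_goodP l2_integral_le)

set_option linter.unusedSectionVars false

variable {n k m : ℕ} {Y : Type} [Fintype Y] [DecidableEq Y] {p q r : ℕ}

variable {G : Fin m → Clause n k} {α κ Λ ε δ ν t ρ σ β R : ℝ} {J : ℕ} {A : Set (Fin p → ℝ)}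
variable {K : Type} [DecidableEq K] {Ic : Finset K} {Is : Finset ℤ} {cell : (Fin p → ℝ) → K}
  {bx : K → Fin p → ℝ} {ns : ℝ → ℤ}

/-- chains are good -/
theorem fam1 (hC : CB κ Λ δ ν ρ σ β R n k J r) (hD : Std ε δ ν t r G)
    (hs : Λ * (r * 2 ^ (r + 1)) * ε ≤ κ / 8)
    (w : Fin p → List (Letter n m Y))
    (hw : ∀ i, ∀ l ∈ w i, l.Ok t r G) (hr : ∀ i, (w i).length ≤ r)
    (hR : (2 : ℝ) ^ (α * n) ≤ R ^ 2) (hN : Nets A Λ ρ σ r Ic Is cell bx ns)
    {S : Finset (Cube n)}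
    {a : Cube n → Fin p → ℝ} {e d : Cube n → ℝ} {b : Cube n → ℕ → Sp n Y}
    (h0 : ∀ z ∈ S, NdB α κ Λ σ r A w (a z) (e z) (d z) ∧
      BC (lin (Ham (Letter.flt G δ z) w (a z))) (e z) (d z) (b z))
    {F : Finset (Cube n)} (hFS : F ⊆ S) {z0 : Cube n} (hz0 : z0 ∈ F)
    (hk : ∀ z : F, cell (a z) = cell (a z0) ∧ ns (e z) = ns (e z0)) (j : ℕ) :
    Good β (R * geo κ Λ ρ σ r J + 1) (fun z : F => b z j) := by
  have h0z := (h0 z0 (hFS hz0)).1
  obtain ⟨hA, hfew⟩ := BA.few_basB hD w hw hr (a z0) h0z.2.1 hs h0z.2.2.1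
  have h1 := BA.famFC (α := α) (cu := 0) (θ := e z0 + κ / 4) hC hD w hw hr (a z0) h0z.2.1 hR
    ⟨hA, hfew⟩ (Z := F) (fun z => (z : Cube n)) Subtype.val_injective (fun z => a z)
    (fun z => (h0 z (hFS z.2)).1.2.1) (bx (cell (a z0))) (hN.b0 _) (hN.b1 _)
    (fun z => hN.c2 _ (h0 z (hFS z.2)).1.1 _ h0z.1 (h0 z (hFS z.2)).1.2.1 h0z.2.1 (hk z).1)
    (fun z => e z) (fun z => d z) (e z0) (fun z => hN.s2 _ _ (hk z).2)
    (fun z => by
      have h2 := (h0 z (hFS z.2)).1.2.2.2.2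
      rw [abs_of_nonneg h2.1]
      exact h2.2)
    (by linarith) (fun j z => b z j)
    (fun _ _ => 0) (fun j z => (h0 z (hFS z.2)).2.1 j) (fun j => Good.zero hC.β0.le le_rfl)
    (fun j z => by
      rw [(h0 z (hFS z.2)).2.2 j, add_zero]) j
  rw [mul_zero, add_zero] at h1
  exact h1

/-- images of chains under circuits -/
theorem count1 (hC : CB κ Λ δ ν ρ σ β R n k J r) (hD : Std ε δ ν t r G)
    (hs : Λ * (r * 2 ^ (r + 1)) * ε ≤ κ / 8)
    (w : Fin p → List (Letter n m Y))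
    (T : Fin q → List (Gate n p Y)) (hw : ∀ i, ∀ l ∈ w i, l.Ok t r G)
    (hr : ∀ i, (w i).length ≤ r) {L d N Γ : ℝ} (hN0 : 0 ≤ N) (hT : ∀ j, COk t G L d N (T j))
    (hgr : Grd ((r * 2 ^ (r + 1)) * (ν + 2 / Real.sqrt (2 ^ k))) β L d Γ n r)
    (hR : (2 : ℝ) ^ (α * n) ≤ R ^ 2)
    (hN : Nets A Λ ρ σ r Ic Is cell bx ns) {η : ℝ} (hη : 0 < η) (S : Finset (Cube n))
    (hS : ∀ z ∈ S, ∃ (a : Fin p → ℝ) (e x : ℝ) (b : ℕ → Sp n Y) (o : Option (Fin q)),
      (NdB α κ Λ σ r A w a e x ∧ BC (lin (Ham (Letter.flt G δ z) w a)) e x b) ∧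
      η < NX G δ r w z (Tw T o) (b 0)) :
    (S.card : ℝ) ≤ ((q + 1) * (Ic.card * Is.card) : ℝ) *
      (4 * (β * (AXc p r Γ (L + d) N * (R * geo κ Λ ρ σ r J + 1))) ^ 2 / η ^ 2) := by
  classical
  choose! a e x b o hS using hS
  have hg := geo_nonnegB hC
  have hR0 := hC.R0
  have h := count_fib S ((univ : Finset (Option (Fin q))) ×ˢ (Ic ×ˢ Is))
    (fun z => (o z, (cell (a z), ns (e z)))) (fun z hz => ?_)
    (fun z => NX G δ r w z (Tw T (o z)) (b z 0)) hη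
    (B := β * (AXc p r Γ (L + d) N * (R * geo κ Λ ρ σ r J + 1)))
    (fun z hz => (hS z hz).2) (fun F hFS z0 hz0 hkey => ?_)
  · simp only [card_product, card_univ (α := Option (Fin q)), Fintype.card_option,
      Fintype.card_fin] at h
    push_cast at h
    exact h
  · obtain ⟨⟨⟨h0, h1, h2, h3, h4⟩, h5⟩, h6⟩ := hS z hz
    simp only [mem_product, mem_univ, true_and]
    exact ⟨hN.c1 _ h0 h1, hN.s1 _ h3⟩
  · have hk : ∀ z : F, o z = o z0 ∧ cell (a z) = cell (a z0) ∧ ns (e z) = ns (e z0) := by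
      intro z
      have h1 := hkey z z.2
      simpa [Prod.ext_iff] using h1
    have h1 := fam1 hC hD hs w hw hr hR hN (fun z hz => (hS z hz).1) hFS hz0
      (fun z => (hk z).2) 0
    have hTo := Tw_cok hgr.L0 hgr.d0 hN0 hT (o z0)
    have h2 := l2_NX hgr hD hC.β0 (fun z : F => (z : Cube n))
      (ball_sub hC.ball (fun z : F => (z : Cube n)) Subtype.val_injective) (card_fin_le F) w hw hr
      (Tw T (o z0)) hTo.1 hTo.2.1 hTo.2.2.1 hTo.2.2.2 (by
        have : 0 ≤ R * geo κ Λ ρ σ r J := by positivity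
        linarith) (AX.Good.plus hC.β0.le h1) (fun z => (hS z (hFS z.2)).1.2.1 0)
    have h3 : (fun z : F => NX G δ r w z (Tw T (o z)) (b z 0)) =
        fun z : F => NX G δ r w (z : Cube n) (Tw T (o z0)) (b z 0) := by
      funext z
      rw [(hk z).1]
    rw [h3]
    exact h2

/-- chains of resolvents -/
theorem count2 (hC : CB κ Λ δ ν ρ σ β R n k J r) (hD : Std ε δ ν t r G)
    (hs : Λ * (r * 2 ^ (r + 1)) * ε ≤ κ / 8) (hσ1 : σ ≤ 1)
    (w : Fin p → List (Letter n m Y))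
    (T : Fin q → List (Gate n p Y)) (hw : ∀ i, ∀ l ∈ w i, l.Ok t r G)
    (hr : ∀ i, (w i).length ≤ r) {L d N Γ : ℝ} (hN0 : 0 ≤ N) (hT : ∀ j, COk t G L d N (T j))
    (hgr : Grd ((r * 2 ^ (r + 1)) * (ν + 2 / Real.sqrt (2 ^ k))) β L d Γ n r)
    (hR : (2 : ℝ) ^ (α * n) ≤ R ^ 2)
    (hN : Nets A Λ ρ σ r Ic Is cell bx ns) {η : ℝ} (hη : 0 < η) (S : Finset (Cube n))
    (hS : ∀ z ∈ S, ∃ (a : Fin p → ℝ) (e x : ℝ) (b : ℕ → Sp n Y) (o : Option (Fin q))
      (a' : Fin p → ℝ) (e' x' : ℝ) (b' v : ℕ → Sp n Y) (i : ℕ),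
      (NdB α κ Λ σ r A w a e x ∧ BC (lin (Ham (Letter.flt G δ z) w a)) e x b) ∧
      (NdB α κ Λ σ r A w a' e' x' ∧ BC (lin (Ham (Letter.flt G δ z) w a')) e' x' b') ∧
      ((∀ i, ‖v i‖ ≤ 1) ∧
      lin (Ham (Letter.flt G δ z) w a') (v 0) - (e' : ℂ) • v 0 =
        (x' : ℂ) • (lin (circF G δ w z (Tw T o)) (b 0) - b' 0) ∧
      (∀ i, lin (Ham (Letter.flt G δ z) w a') (v (i + 1)) - (e' : ℂ) • v (i + 1) =
        (x' : ℂ) • v i)) ∧ η < NR G δ w z (v i)) :
    (S.card : ℝ) ≤ (((Ic.card * Is.card) * ((q + 1) * (Ic.card * Is.card)) : ℝ)) *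
      (4 * (β * (MR p r * ((R + (κ / 4)⁻¹ * ((2 * Γ) *
        (R * geo κ Λ ρ σ r J + 1))) * geo κ Λ ρ σ r J + 1))) ^ 2 / η ^ 2) := by
  classical
  choose! a e x b o a' e' x' b' v i hS using hS
  have hg := geo_nonnegB hC
  have hR0 := hC.R0
  have hκ0 := hC.κ0
  have hΓ1 := hgr.one_le
  have hΓ0 : 0 ≤ Γ := zero_le_one.trans hΓ1
  have h := count_fib S ((Ic ×ˢ Is) ×ˢ (univ : Finset (Option (Fin q))) ×ˢ (Ic ×ˢ Is))
    (fun z => ((cell (a z), ns (e z)), o z, (cell (a' z), ns (e' z)))) (fun z hz => ?_)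
    (fun z => NR G δ w z (v z (i z))) hη
    (B := β * (MR p r * ((R + (κ / 4)⁻¹ * ((2 * Γ) *
        (R * geo κ Λ ρ σ r J + 1))) * geo κ Λ ρ σ r J + 1)))
    (fun z hz => (hS z hz).2.2.2) (fun F hFS z0 hz0 hkey => ?_)
  · simp only [card_product, card_univ (α := Option (Fin q)), Fintype.card_option,
      Fintype.card_fin] at h
    push_cast at h
    exact h
  · obtain ⟨⟨⟨h0, h1, h2, h3, h4⟩, -⟩, ⟨⟨h0', h1', h2', h3', h4'⟩, -⟩, -⟩ := hS z hz
    simp only [mem_product, mem_univ, true_and]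
    exact ⟨⟨hN.c1 _ h0 h1, hN.s1 _ h3⟩, hN.c1 _ h0' h1', hN.s1 _ h3'⟩
  · have hk : ∀ z : F, (cell (a z) = cell (a z0) ∧ ns (e z) = ns (e z0)) ∧ o z = o z0 ∧
        cell (a' z) = cell (a' z0) ∧ ns (e' z) = ns (e' z0) := by
      intro z
      have h1 := hkey z z.2
      simpa [Prod.ext_iff] using h1
    have h1 := fam1 hC hD hs w hw hr hR hN (fun z hz => (hS z hz).1) hFS hz0
      (fun z => (hk z).1) 0
    have h1' := fam1 hC hD hs w hw hr hR hN (fun z hz => (hS z hz).2.1) hFS hz0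
      (fun z => (hk z).2.2) 0
    -- the source of the chain
    have hinj : Function.Injective (fun z : F => (z : Cube n)) := Subtype.val_injective
    have hBl := ball_sub hC.ball (fun z : F => (z : Cube n)) hinj
    have hc1 : 1 ≤ R * geo κ Λ ρ σ r J + 1 := by
      have : 0 ≤ R * geo κ Λ ρ σ r J := by positivity
      linarith
    have hTo := Tw_cok hgr.L0 hgr.d0 hN0 hT (o z0)
    have h2 := goodP_circF hgr hD hC.β0 (fun z : F => (z : Cube n)) hBl (card_fin_le F) w hw hr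
      (Tw T (o z0)) hTo.1 hTo.2.1 hTo.2.2.1 hc1 (AX.Good.plus hC.β0.le h1)
      (fun z => (hS z (hFS z.2)).1.2.1 0)
    have hsrc : ∀ cu' > (2 * Γ) * (R * geo κ Λ ρ σ r J + 1), ∀ j : ℕ, Good β cu'
        (fun z : F => (((if j = i z then x' z else 0 : ℝ)) : ℂ) •
          (lin (circF G δ w (z : Cube n) (Tw T (o z0))) (b z 0) - b' z 0)) := by
      intro cu' hcu' j
      obtain ⟨c1, hc1'⟩ : ∃ c1, c1 = cu' - (R * geo κ Λ ρ σ r J + 1) := ⟨_, rfl⟩
      have hc2 : Γ * (R * geo κ Λ ρ σ r J + 1) < c1 := by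
        have h3 : R * geo κ Λ ρ σ r J + 1 ≤ Γ * (R * geo κ Λ ρ σ r J + 1) :=
          le_mul_of_one_le_left (by linarith) hΓ1
        rw [hc1']
        linarith
      have h3 := h2 c1 hc2
      have h4 := (goodOp_scalar (β := β) (Z := F) (E := Sp n Y) zero_le_one
        (fun _ => (-1 : ℂ)) (fun z => by simp)).2 _ _ h1'
      have h5 := h3.add h4
      have h6 := (goodOp_scalar (β := β) (Z := F) (E := Sp n Y) zero_le_one
        (fun z => (((if j = i z then x' z else 0 : ℝ)) : ℂ)) (fun z => by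
          have h7 := (hS z (hFS z.2)).2.1.1.2.2.2.2
          rw [Complex.norm_real, Real.norm_eq_abs]
          split_ifs
          · rw [abs_of_nonneg h7.1]
            exact h7.2.trans hσ1
          · rw [abs_zero]
            exact zero_le_one)).2 _ _ h5
      have h8 : 1 * (c1 + 1 * (R * geo κ Λ ρ σ r J + 1)) = cu' := by
        rw [hc1']
        ring
      rw [h8] at h6
      have h9 : (fun z : F => (((if j = i z then x' z else 0 : ℝ)) : ℂ) •
          (lin (circF G δ w (z : Cube n) (Tw T (o z0))) (b z 0) - b' z 0)) =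
          fun z : F => ((((if j = i z then x' z else 0 : ℝ)) : ℂ) •
            (LinearMap.id : Sp n Y →ₗ[ℂ] Sp n Y))
          (lin (circF G δ w (z : Cube n) (Tw T (o z0))) (b z 0) +
            ((-1 : ℂ) • (LinearMap.id : Sp n Y →ₗ[ℂ] Sp n Y)) (b' z 0)) := by
        funext z
        simp only [LinearMap.smul_apply, LinearMap.id_apply, neg_one_smul, sub_eq_add_neg,
          LinearMap.neg_apply]
      rw [h9]
      exact h6
    have h0' := (hS z0 (hFS hz0)).2.1.1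
    obtain ⟨hA', hfew'⟩ := BA.few_basB hD w hw hr (a' z0) h0'.2.1 hs h0'.2.2.1
    have hv : GoodP β ((R + (κ / 4)⁻¹ * ((2 * Γ) *
        (R * geo κ Λ ρ σ r J + 1))) * geo κ Λ ρ σ r J + 1) (fun z : F => v z (i z)) := by
      refine goodP_source hC.β0.le hg (by positivity) fun cu' hcu' => ?_
      have h3 := BA.famFC (α := α) (θ := e' z0 + κ / 4) hC hD w hw hr (a' z0) h0'.2.1 hR
        ⟨hA', hfew'⟩ (Z := F) (fun z => (z : Cube n)) Subtype.val_injective (fun z => a' z)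
        (fun z => (hS z (hFS z.2)).2.1.1.2.1) (bx (cell (a' z0))) (hN.b0 _) (hN.b1 _)
        (fun z => hN.c2 _ (hS z (hFS z.2)).2.1.1.1 _ h0'.1 (hS z (hFS z.2)).2.1.1.2.1 h0'.2.1
          (hk z).2.2.1)
        (fun z => e' z) (fun z => x' z)
        (e' z0) (fun z => hN.s2 _ _ (hk z).2.2.2)
        (fun z => by
          have h2 := (hS z (hFS z.2)).2.1.1.2.2.2.2
          rw [abs_of_nonneg h2.1]
          exact h2.2) (by linarith)
        (fun j z => if j ≤ i z then v z (i z - j) else 0) _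
        (fun j z => ?_) (hsrc cu' hcu') (fun j z => ?_) 0
      · simp only [Nat.zero_le, if_true, Nat.sub_zero] at h3
        exact h3
      · beta_reduce
        split_ifs
        · exact (hS z (hFS z.2)).2.2.1.1 _
        · rw [norm_zero]
          exact zero_le_one
      · beta_reduce
        obtain ⟨-, h4, h5⟩ := (hS z (hFS z.2)).2.2.1
        rcases lt_trichotomy j (i z) with hj | hj | hj
        · rw [if_pos hj.le, if_pos (show j + 1 ≤ i z from hj), if_neg hj.ne]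
          obtain ⟨l, hl⟩ : ∃ l, i z = j + 1 + l := ⟨i z - (j + 1), by omega⟩
          have h6 : i z - j = l + 1 := by omega
          have h7 : i z - (j + 1) = l := by omega
          rw [h6, h7, h5 l]
          simp
        · rw [if_pos hj.le, if_neg (show ¬ j + 1 ≤ i z by omega), if_pos hj, hj, Nat.sub_self, h4,
            (hk z).2.1]
          simp
        · rw [if_neg (show ¬ j ≤ i z by omega), if_neg (show ¬ j + 1 ≤ i z by omega),
            if_neg hj.ne']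
          simp
    exact l2_NR hD hC.β0.le (fun z : F => (z : Cube n)) hBl w hw hr (by positivity) hv

/-- assignments which are not good -/
theorem count_bad (hC : CB κ Λ δ ν ρ σ β R n k J r) (hD : Std ε δ ν t r G)
    (hs : Λ * (r * 2 ^ (r + 1)) * ε ≤ κ / 8) (hσ1 : σ ≤ 1)
    (w : Fin p → List (Letter n m Y))
    (T : Fin q → List (Gate n p Y)) (hw : ∀ i, ∀ l ∈ w i, l.Ok t r G)
    (hr : ∀ i, (w i).length ≤ r) {L d N Γ : ℝ} (hN0 : 0 ≤ N) (hT : ∀ j, COk t G L d N (T j))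
    (hgr : Grd ((r * 2 ^ (r + 1)) * (ν + 2 / Real.sqrt (2 ^ k))) β L d Γ n r)
    (hR : (2 : ℝ) ^ (α * n) ≤ R ^ 2)
    (hN : Nets A Λ ρ σ r Ic Is cell bx ns) {η : ℝ} (hη : 0 < η) (S : Finset (Cube n))
    (hS : ∀ z ∈ S, ¬ GoodB α κ Λ σ δ η r A G w T z) :
    (S.card : ℝ) ≤ (Ic.card * Is.card : ℝ) *
      (4 * (β * (MR p r * (R * geo κ Λ ρ σ r J + 1))) ^ 2 / η ^ 2) +
      ((q + 1) * (Ic.card * Is.card) : ℝ) *
      (4 * (β * (AXc p r Γ (L + d) N * (R * geo κ Λ ρ σ r J + 1))) ^ 2 / η ^ 2) +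
      (((Ic.card * Is.card) * ((q + 1) * (Ic.card * Is.card)) : ℝ)) *
      (4 * (β * (MR p r * ((R + (κ / 4)⁻¹ * ((2 * Γ) *
        (R * geo κ Λ ρ σ r J + 1))) * geo κ Λ ρ σ r J + 1))) ^ 2 / η ^ 2) := by
  classical
  obtain ⟨P0, hP0⟩ : ∃ P0 : Cube n → Prop, ∀ z, P0 z ↔
      ∃ (a : Fin p → ℝ) (e : ℝ) (v : Sp n Y), a ∈ A ∧ ∑ i, |a i| ≤ Λ ∧ ‖v‖ = 1 ∧
      lin (Ham Letter.av w a) v = (e : ℂ) • v ∧ Few α κ e (Ham Letter.av w a) ∧
      η < NR G δ w z v := ⟨_, fun _ => Iff.rfl⟩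
  obtain ⟨P1, hP1⟩ : ∃ P1 : Cube n → Prop, ∀ z, P1 z ↔
      ∃ (a : Fin p → ℝ) (e x : ℝ) (b : ℕ → Sp n Y) (o : Option (Fin q)),
      (NdB α κ Λ σ r A w a e x ∧ BC (lin (Ham (Letter.flt G δ z) w a)) e x b) ∧
      η < NX G δ r w z (Tw T o) (b 0) := ⟨_, fun _ => Iff.rfl⟩
  have h0 := count0 hC hD w hw hr hR hN hη (S.filter P0) (fun z hz => by
    rw [mem_filter] at hz
    exact (hP0 z).1 hz.2)
  have h1 := count1 hC hD hs w T hw hr hN0 hT hgr hR hN hη
    ((S.filter fun z => ¬ P0 z).filter P1) (fun z hz => by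
      rw [mem_filter] at hz
      exact (hP1 z).1 hz.2)
  have h2 := count2 hC hD hs hσ1 w T hw hr hN0 hT hgr hR hN hη
    ((S.filter fun z => ¬ P0 z).filter fun z => ¬ P1 z) (fun z hz => by
      rw [mem_filter, mem_filter] at hz
      by_contra hno
      refine hS z hz.1.1 ⟨fun a e v hm ha hv he hf => ?_,
        fun a e x b hn hb o => ?_,
        fun a e x b hn hb o a' e' x' b' hn' hb' v hv heq heq' i => ?_⟩
      · by_contra hlt
        exact hz.1.2 ((hP0 z).2 ⟨a, e, v, hm, ha, hv, he, hf, not_le.1 hlt⟩)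
      · by_contra hlt
        exact hz.2 ((hP1 z).2 ⟨a, e, x, b, o, ⟨hn, hb⟩, not_le.1 hlt⟩)
      · by_contra hlt
        exact hno ⟨a, e, x, b, o, a', e', x', b', v, i, ⟨hn, hb⟩, ⟨hn', hb'⟩,
          ⟨hv, heq, heq'⟩, not_le.1 hlt⟩)
  have h3 := card_filter_add_card_filter_not (s := S) P0
  have h3' := card_filter_add_card_filter_not (s := S.filter fun z => ¬ P0 z) P1
  have h4 : (S.card : ℝ) = ((S.filter P0).card : ℝ) +
      (((S.filter fun z => ¬ P0 z).filter P1).card : ℝ) +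
      (((S.filter fun z => ¬ P0 z).filter fun z => ¬ P1 z).card : ℝ) := by
    rw [add_assoc]
    have h5 : (((S.filter fun z => ¬ P0 z).filter P1).card : ℝ) +
      (((S.filter fun z => ¬ P0 z).filter fun z => ¬ P1 z).card : ℝ) =
      ((S.filter fun z => ¬ P0 z).card : ℝ) := by exact_mod_cast h3'
    rw [h5]
    exact_mod_cast h3.symm
  rw [h4]
  exact add_le_add (add_le_add h0 h1) h2

end Pool.Agent.H73.AY.BI
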