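import Pool.Agent.H73.AY.Flat

/-! Chains of resolvent equations and good assignments. -/

namespace Pool.Agent.H73.AY.BI

open Finset Matrix Pool.Agent.H73.QA Pool.Agent.H73.AD Pool.Agent.H73.AZ

variable {n k m p q : ℕ} {Y : Type} [Fintype Y] [DecidableEq Y]

/-- chains `(H - e) b_i = d b_(i + 1)` in the unit ball -/
def BC (H : Sp n Y →ₗ[ℂ] Sp n Y) (e d : ℝ) (b : ℕ → Sp n Y) : Prop :=
  (∀ i, ‖b i‖ ≤ 1) ∧ ∀ i, H (b i) - (e : ℂ) • b i = (d : ℂ) • b (i + 1)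

/-- parameters of a node -/
def NdB (α κ Λ σ : ℝ) (r : ℕ) (A : Set (Fin p → ℝ)) (w : Fin p → List (Letter n m Y))
    (a : Fin p → ℝ) (e d : ℝ) : Prop :=
  a ∈ A ∧ ∑ i, |a i| ≤ Λ ∧ Few α (3 * κ / 8) e (Ham Letter.av w a) ∧ |e| ≤ Λ * 2 ^ (r + 1) ∧
    0 ≤ d ∧ d ≤ σ

/-- good assignments -/
structure GoodB (α κ Λ σ δ η : ℝ) (r : ℕ) (A : Set (Fin p → ℝ)) (G : Fin m → Clause n k)
    (w : Fin p → List (Letter n m Y)) (T : Fin q → List (Gate n p Y)) (z : Cube n) : Prop where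
  g0 : ∀ (a : Fin p → ℝ) (e : ℝ) (v : Sp n Y), a ∈ A → ∑ i, |a i| ≤ Λ → ‖v‖ = 1 →
    lin (Ham Letter.av w a) v = (e : ℂ) • v → Few α κ e (Ham Letter.av w a) →
    NR G δ w z v ≤ η
  g1 : ∀ (a : Fin p → ℝ) (e d : ℝ) (b : ℕ → Sp n Y), NdB α κ Λ σ r A w a e d →
    BC (lin (Ham (Letter.flt G δ z) w a)) e d b →
    ∀ o : Option (Fin q), NX G δ r w z (Tw T o) (b 0) ≤ η
  g2 : ∀ (a : Fin p → ℝ) (e d : ℝ) (b : ℕ → Sp n Y), NdB α κ Λ σ r A w a e d →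
    BC (lin (Ham (Letter.flt G δ z) w a)) e d b →
    ∀ (o : Option (Fin q)) (a' : Fin p → ℝ) (e' d' : ℝ) (b' : ℕ → Sp n Y),
    NdB α κ Λ σ r A w a' e' d' → BC (lin (Ham (Letter.flt G δ z) w a')) e' d' b' →
    ∀ v : ℕ → Sp n Y, (∀ i, ‖v i‖ ≤ 1) →
    lin (Ham (Letter.flt G δ z) w a') (v 0) - (e' : ℂ) • v 0 =
      (d' : ℂ) • (lin (circF G δ w z (Tw T o)) (b 0) - b' 0) →
    (∀ i, lin (Ham (Letter.flt G δ z) w a') (v (i + 1)) - (e' : ℂ) • v (i + 1) =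
      (d' : ℂ) • v i) →
    ∀ i, NR G δ w z (v i) ≤ η

end Pool.Agent.H73.AY.BI
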