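import Pool.Agent.H73.AY.Stmt

/-!
Adiabatic paths that follow bands of the spectrum, and circuits, for planted k-CNF formulas.

`Gate`, `circ`, `COk` are the ones of `Pool/Agent/H73/AY/Stmt.lean`; `Letter`, `Ham`, `LowE`, `Cov`
are the ones of `Pool/Agent/H73/AZ/Stmt.lean`; `Cube n`, `Clause n k`, `Violates` are the ones of
`Pool/Agent/H73/QA/Stmt.lean`; `Op`, `nsq`, `Bdd`, `pviol` are the ones of
`Pool/Agent/H73/AD/Stmt.lean`.
-/

namespace Pool.Agent.H73.BA

open Finset Matrix Pool.Agent.H73.QA Pool.Agent.H73.AD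
open Pool.Agent.H73.AZ (Letter Ham LowE)
open Pool.Agent.H73.AY (Gate circ)

variable {n k m p q : ℕ} {Y : Type} [Fintype Y] [DecidableEq Y]

/-- `V` is the spectral subspace of the Hermitian matrix `H` for the interval `[E - ρ, E + ρ]`, and
all other eigenvalues of `H` have distance at least `g` from this interval: `V` is invariant,
`H - E` has norm at most `ρ` on `V` and expands all vectors orthogonal to `V` by the factor
`ρ + g`. -/
def Band (H : Op n Y) (g E ρ : ℝ) (V : Submodule ℂ (Cube n × Y → ℂ)) : Prop :=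
  (∀ v ∈ V, H *ᵥ v ∈ V ∧ nsq (H *ᵥ v - (E : ℂ) • v) ≤ ρ ^ 2 * nsq v) ∧
    ∀ v, (∀ w ∈ V, star w ⬝ᵥ v = 0) → (ρ + g) ^ 2 * nsq v ≤ nsq (H *ᵥ v - (E : ℂ) • v)

/-- A schedule consists of `l + 1` continuous paths of Hamiltonians `Ham`, given by coefficient
vectors `a i s ∈ A` of `ℓ¹` norm at most `Λ`; at the beginning only words with the letters `fix` and
`cls` are used.  It follows a band of the spectrum: the eigenvalues in the interval
`[E i s - ρ i s, E i s + ρ i s]`, whose ends are continuous along each path, of length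
`2 ρ i s ≤ 2 c`, with a low-lying lower end, are separated by at least `g > 2 ^ (-u n)` from the rest
of the spectrum; `V i s` is the subspace spanned by their eigenvectors.  Between two paths one of
the circuits `T j` is applied, such that every unit vector of the next subspace has an overlap
larger than `2 ^ (-u n) / g` with the image of some unit vector of the subspace.  Then every circuit
`T j` maps all unit vectors of the last subspace to vectors of norm at most `2 ^ (-u n) / g` on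
every set `L` of assignments that violate at most the fraction `(1 - t) / 2 ^ k` of the clauses. -/
def Hard (α κ Λ t u c : ℝ) (A : Set (Fin p → ℝ)) (G : Fin m → Clause n k)
    (w : Fin p → List (Letter n m Y)) (T : Fin q → List (Gate n p Y)) (z : Cube n) : Prop :=
  ∀ (g : ℝ) (l : ℕ) (a : ℕ → ℝ → Fin p → ℝ) (E ρ : ℕ → ℝ → ℝ)
    (V : ℕ → ℝ → Submodule ℂ (Cube n × Y → ℂ)),
    (2 : ℝ) ^ (-u * n) < g → g ≤ 1 → (∀ i, a 0 0 i ≠ 0 → ∀ l ∈ w i, l.Free) →
    (∀ i ≤ l, ContinuousOn (a i) (Set.Icc 0 1) ∧ ContinuousOn (E i) (Set.Icc 0 1) ∧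
      ContinuousOn (ρ i) (Set.Icc 0 1) ∧
      ∀ s ∈ Set.Icc (0 : ℝ) 1, a i s ∈ A ∧ ∑ j, |a i s j| ≤ Λ ∧ 0 ≤ ρ i s ∧ ρ i s ≤ c ∧
        Band (Ham (Letter.op G z) w (a i s)) g (E i s) (ρ i s) (V i s) ∧
        LowE α κ (Ham (Letter.op G z) w (a i s)) (Ham Letter.av w (a i s)) (E i s - ρ i s)) →
    (∀ i < l, ∀ v' ∈ V (i + 1) 0, nsq v' = 1 → ∃ j, ∃ v ∈ V i 1, nsq v = 1 ∧
      (2 : ℝ) ^ (-u * n) / g < ‖star v' ⬝ᵥ circ (Letter.op G z) w z (T j) *ᵥ v‖) →
    ∀ (j : Fin q) (L : Finset (Cube n)),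
      (∀ x ∈ L, (pviol G z x : ℝ) ≤ (1 - t) * m / 2 ^ k) → ∀ v ∈ V l 1, nsq v = 1 →
      Real.sqrt (∑ x ∈ L, ∑ y, ‖(circ (Letter.op G z) w z (T j) *ᵥ v) (x, y)‖ ^ 2) ≤
        (2 : ℝ) ^ (-u * n) / g

end Pool.Agent.H73.BA
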