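import Pool.Agent.H73.BA.Targets
import Pool.Agent.H73.BA.Flat
import Pool.Agent.H73.BA.Stmt
import Pool.Agent.H86.AY.ChainA

/-! Good assignments are hard for bands, part 1: nodes of a schedule. -/

namespace Pool.Agent.H73.AY.BI

open Finset Matrix Pool.Agent.H73.QA Pool.Agent.H73.AD Pool.Agent.H73.AZ

set_option linter.unusedSectionVars false
set_option linter.deprecated false

variable {n k m : ℕ} {Y : Type} [Fintype Y] [DecidableEq Y] {p q r : ℕ}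

/-- the facts from linear algebra -/
structure LA : Prop where
  spc : BA.T_SPC
  sin : BA.T_SIN
  sur : BA.T_SUR
  ort : BA.T_ORT
  jmp : BA.T_JMP
  chw : BA.T_CHW
  chr : BA.T_CHR

section chain
variable {α κ Λ t u σ ε δ ν g c : ℝ} {A : Set (Fin p → ℝ)} {G : Fin m → Clause n k}
    {w : Fin p → List (Letter n m Y)} {T : Fin q → List (Gate n p Y)} {z : Cube n}

/-- a Hamiltonian of a schedule -/
structure NodeB (α κ Λ g c : ℝ) (A : Set (Fin p → ℝ)) (G : Fin m → Clause n k)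
    (w : Fin p → List (Letter n m Y)) (z : Cube n) (a : Fin p → ℝ) (E ρ : ℝ)
    (V : Submodule ℂ (Sp n Y)) : Prop where
  mem : a ∈ A
  coeff : ∑ j, |a j| ≤ Λ
  ρ0 : 0 ≤ ρ
  ρc : ρ ≤ c
  bnd : BA.Bnd (lin (Ham (Letter.op G z) w a)) E ρ g V
  low : LowE α κ (Ham (Letter.op G z) w a) (Ham Letter.av w a) (E - ρ)

/-- the flattened Hamiltonian has a spectral subspace near `E` which is not smaller -/
def TypeB (s δ : ℝ) (G : Fin m → Clause n k) (w : Fin p → List (Letter n m Y))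
    (z : Cube n) (a : Fin p → ℝ) (E ρ : ℝ) (V : Submodule ℂ (Sp n Y)) : Prop :=
  ∃ W : Submodule ℂ (Sp n Y), BA.Spc (lin (Ham (Letter.flt G δ z) w a)) E (ρ + s) W ∧
    Module.finrank ℂ V ≤ Module.finrank ℂ W

/-- the standing assumptions -/
structure ParB (α κ Λ t u σ ε δ ν c : ℝ) (r : ℕ) (A : Set (Fin p → ℝ)) (G : Fin m → Clause n k)
    (w : Fin p → List (Letter n m Y)) (T : Fin q → List (Gate n p Y)) (z : Cube n) : Prop where
  hκ : 0 < κ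
  hκ1 : κ ≤ 1
  hΛ : 0 ≤ Λ
  hσ : 0 < σ
  hσ1 : σ ≤ 1
  hcσ : c ≤ σ / 2
  hcκ : c ≤ κ / 8
  hS : Std ε δ ν t r G
  hsm : Λ * (r * 2 ^ (r + 1)) * (ν + ε + 2 / Real.sqrt (2 ^ k)) ≤ κ / 4
  hw : ∀ i, ∀ l ∈ w i, l.Ok t r G
  hr : ∀ i, (w i).length ≤ r
  hT : ∀ j, ∀ c ∈ T j, c.Ok t G
  hz : GoodB α κ (Λ + 1) σ δ (κ * (2 : ℝ) ^ (-u * n) / (6400 * (Λ + 1) * 4 ^ r / σ)) r A G w T z

/-- the numbers -/
theorem num_eta {κ τ Λ σ : ℝ} (hκ : 0 < κ) (hτ : 0 < τ) (hΛ : 0 ≤ Λ) (hσ : 0 < σ) (hσ1 : σ ≤ 1)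
    (r : ℕ) :
    0 ≤ κ * τ / (6400 * (Λ + 1) * 4 ^ r / σ) ∧
    κ * τ / (6400 * (Λ + 1) * 4 ^ r / σ) ≤ κ * τ / 6400 ∧
    Λ * 4 ^ (r + 1) * (κ * τ / (6400 * (Λ + 1) * 4 ^ r / σ)) ≤ κ * τ * σ / 1600 := by
  obtain ⟨e, he⟩ : ∃ e : ℝ, e = 4 ^ r := ⟨_, rfl⟩
  have h1 : (1 : ℝ) ≤ e := by rw [he]; exact one_le_pow₀ (by norm_num)
  have hL : 0 < Λ + 1 := by linarith
  have hkt : 0 < κ * τ := mul_pos hκ hτ
  have he0 : 0 < e := by linarith
  have p2 : (4 : ℝ) ^ (r + 1) = 4 * e := by rw [he, pow_succ]; ring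
  rw [p2, ← he]
  refine ⟨by positivity, ?_, ?_⟩
  · refine div_le_div_of_nonneg_left hkt.le (by norm_num) ?_
    rw [le_div_iff₀ hσ]
    nlinarith
  · have h5 : Λ * (4 * e) * (κ * τ / (6400 * (Λ + 1) * e / σ)) =
        κ * τ * σ / 1600 * (Λ / (Λ + 1)) := by
      field_simp
      ring
    rw [h5]
    have h6 : Λ / (Λ + 1) ≤ 1 := (div_le_one hL).2 (by linarith)
    have h7 : 0 < κ * τ * σ / 1600 := by positivity
    nlinarith

theorem ham_diff (hP : ParB α κ Λ t u σ ε δ ν c r A G w T z) {a : Fin p → ℝ}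
    (ha : ∑ i, |a i| ≤ Λ) {η : ℝ} {x : Sp n Y} (hx : NR G δ w z x ≤ η) :
    ‖lin (Ham (Letter.flt G δ z) w a) x - lin (Ham (Letter.op G z) w a) x‖ ≤
      Λ * 4 ^ (r + 1) * η := by
  refine (ham_diffX hP.hS z w hP.hw hP.hr a x).trans ?_
  have hΛ := hP.hΛ
  have h0 := NR_nonneg G δ w z x
  have h1 : 0 ≤ ∑ i, |a i| := sum_nonneg fun i _ => abs_nonneg _
  gcongr

/-- the level condition for the averaged Hamiltonian -/
theorem node_few (hP : ParB α κ Λ t u σ ε δ ν c r A G w T z) (hu : (2 : ℝ) ^ (-u * n) ≤ 1)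
    {a : Fin p → ℝ} {E ρ : ℝ} {V : Submodule ℂ (Sp n Y)} (hn : NodeB α κ Λ g c A G w z a E ρ V) :
    Few α (3 * κ / 8) E (Ham Letter.av w a) := by
  obtain ⟨τ, hτ⟩ : ∃ τ : ℝ, τ = (2 : ℝ) ^ (-u * n) := ⟨_, rfl⟩
  have hτ0 : 0 < τ := by rw [hτ]; positivity
  have hκ := hP.hκ
  obtain ⟨hη0, -, hη4⟩ := num_eta hκ hτ0 hP.hΛ hP.hσ hP.hσ1 r
  have hz := hP.hz
  rw [← hτ] at hu hz
  have hρ := hn.ρc.trans hP.hcκ
  rcases hn.low with h1 | ⟨h1, E0, v, hv0, hv, hf⟩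
  · exact few_mono h1 (by linarith)
  · -- normalise `v`
    have hv0' : (WithLp.toLp 2 v : Sp n Y) ≠ 0 := by
      intro h
      apply hv0
      have := congrArg WithLp.ofLp h
      simpa using this
    obtain ⟨x, hx⟩ : ∃ x : Sp n Y, x = ((‖(WithLp.toLp 2 v : Sp n Y)‖⁻¹ : ℝ) : ℂ) •
      (WithLp.toLp 2 v : Sp n Y) := ⟨_, rfl⟩
    have hx1 : ‖x‖ = 1 := by
      rw [hx, norm_smul, Complex.norm_real, Real.norm_of_nonneg (by positivity)]
      exact inv_mul_cancel₀ (norm_ne_zero_iff.2 hv0')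
    have hxe : lin (Ham Letter.av w a) x = (E0 : ℂ) • x := by
      rw [hx, map_smul, lin_eq, lin_toLp, hv, smul_comm]
      rfl
    have hNR := hz.g0 a E0 x hn.mem (hn.coeff.trans (by linarith)) hx1 hxe hf
    have h2 := ham_diff hP hn.coeff hNR
    have h3 := ham_av_flt (δ := δ) hP.hS z w hP.hw hP.hr a hn.coeff x
    rw [hx1, mul_one] at h3
    have h4 : ‖lin (Ham Letter.av w a) x - lin (Ham (Letter.op G z) w a) x‖ ≤ κ / 2 := by
      have h5 : lin (Ham Letter.av w a) x - lin (Ham (Letter.op G z) w a) x =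
          (lin (Ham Letter.av w a) x - lin (Ham (Letter.flt G δ z) w a) x) +
          (lin (Ham (Letter.flt G δ z) w a) x - lin (Ham (Letter.op G z) w a) x) := by abel
      rw [h5]
      refine (norm_add_le _ _).trans ?_
      have h6 := hP.hsm
      have h7 : κ * τ ≤ κ := by nlinarith
      have h8 : κ * τ * σ ≤ κ * 1 := mul_le_mul h7 hP.hσ1 hP.hσ.le hκ.le
      linarith
    have h5 : E - ρ ≤ (inner ℂ x (lin (Ham (Letter.op G z) w a) x)).re := by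
      have h6 := h1 (WithLp.ofLp x)
      rw [quad_toLp, nsq_eq] at h6
      change (E - ρ) * ‖x‖ ^ 2 ≤ (inner ℂ x (lin (Ham (Letter.op G z) w a) x)).re at h6
      rwa [hx1, one_pow, mul_one] at h6
    have h6 : (inner ℂ x (lin (Ham (Letter.op G z) w a) x)).re = E0 -
        (inner ℂ x (lin (Ham Letter.av w a) x - lin (Ham (Letter.op G z) w a) x)).re := by
      rw [inner_sub_right, Complex.sub_re, eig_re hx1 hxe]
      ring
    have h7 : |(inner ℂ x (lin (Ham Letter.av w a) x -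
        lin (Ham (Letter.op G z) w a) x)).re| ≤ κ / 2 := by
      refine (Complex.abs_re_le_norm _).trans ((norm_inner_le_norm _ _).trans ?_)
      rw [hx1, one_mul]
      exact h4
    have h8 := (abs_le.1 h7).1
    exact few_mono hf (by linarith)

theorem node_bound (hP : ParB α κ Λ t u σ ε δ ν c r A G w T z) {a : Fin p → ℝ} {E ρ : ℝ}
    {V : Submodule ℂ (Sp n Y)} (hn : NodeB α κ Λ g c A G w z a E ρ V) {v : Sp n Y} (hv : v ∈ V)
    (hv1 : ‖v‖ = 1) : |E| ≤ (Λ + 1) * 2 ^ (r + 1) := by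
  have h1 := hn.bnd.near v hv
  have h3 := norm_ham_op hP.hS z w hP.hw hP.hr a hn.coeff v
  rw [hv1, mul_one] at h1 h3
  have h4 : ‖(E : ℂ) • v‖ ≤ ‖lin (Ham (Letter.op G z) w a) v - (E : ℂ) • v‖ +
      ‖lin (Ham (Letter.op G z) w a) v‖ := by
    have h5 : (E : ℂ) • v = lin (Ham (Letter.op G z) w a) v -
        (lin (Ham (Letter.op G z) w a) v - (E : ℂ) • v) := by abel
    calc ‖(E : ℂ) • v‖ = ‖lin (Ham (Letter.op G z) w a) v -
        (lin (Ham (Letter.op G z) w a) v - (E : ℂ) • v)‖ := by rw [← h5]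
      _ ≤ _ := norm_sub_le _ _
      _ = _ := add_comm _ _
  rw [norm_smul, Complex.norm_real, Real.norm_eq_abs, hv1, mul_one] at h4
  have h5 : ρ ≤ 1 := (hn.ρc.trans hP.hcκ).trans (by linarith [hP.hκ1])
  have h6 : (1 : ℝ) ≤ 2 ^ (r + 1) := one_le_pow₀ one_le_two
  nlinarith

theorem node_ndB (hP : ParB α κ Λ t u σ ε δ ν c r A G w T z) (hu : (2 : ℝ) ^ (-u * n) ≤ 1)
    (hg0 : 0 ≤ g) (hg1 : g ≤ 1)
    {a : Fin p → ℝ} {E ρ : ℝ} {V : Submodule ℂ (Sp n Y)} (hn : NodeB α κ Λ g c A G w z a E ρ V)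
    {v : Sp n Y} (hv : v ∈ V) (hv1 : ‖v‖ = 1) :
    NdB α κ (Λ + 1) σ r A w a E (ρ + σ / 4 * g) := by
  refine ⟨hn.mem, hn.coeff.trans (by linarith), node_few hP hu hn, node_bound hP hn hv hv1, ?_, ?_⟩
  · have h1 := hn.ρ0
    have h2 := hP.hσ
    positivity
  · have h1 := hn.ρc.trans hP.hcσ
    have h2 := hP.hσ
    nlinarith

theorem NR_le_NX (C : List (Gate n p Y)) (x : Sp n Y) : NR G δ w z x ≤ NX G δ r w z C x := by
  have h2 := ER_nonneg G δ r w z C x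
  have h3 := NR_nonneg G δ w z (lin (circF G δ w z C) x)
  unfold NX
  linarith

theorem Tw_okB (hP : ParB α κ Λ t u σ ε δ ν c r A G w T z) (o : Option (Fin q)) :
    ∀ c ∈ Tw T o, c.Ok t G := by
  cases o with
  | none => intro c hc; exact absurd hc (by simp [Tw])
  | some j => exact hP.hT j

/-- the chain near a vector of the band, for nodes of the first type -/
theorem core (hA : LA) (hP : ParB α κ Λ t u σ ε δ ν c r A G w T z)
    (hg : (2 : ℝ) ^ (-u * n) < g) (hg1 : g ≤ 1) {a : Fin p → ℝ} {E ρ : ℝ}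
    {V : Submodule ℂ (Sp n Y)} (hn : NodeB α κ Λ g c A G w z a E ρ V)
    (hI : TypeB (σ / 4 * g) δ G w z a E ρ V) {v : Sp n Y} (hv : v ∈ V) (hv1 : ‖v‖ = 1) :
    ∃ b : ℕ → Sp n Y, NdB α κ (Λ + 1) σ r A w a E (ρ + σ / 4 * g) ∧
      BC (lin (Ham (Letter.flt G δ z) w a)) E (ρ + σ / 4 * g) b ∧
      g * ‖(2 : ℂ) • b 0 - v‖ ≤ κ * (2 : ℝ) ^ (-u * n) * σ / 400 ∧
      ∀ o : Option (Fin q), NX G δ r w z (Tw T o) (b 0) ≤
        κ * (2 : ℝ) ^ (-u * n) / (6400 * (Λ + 1) * 4 ^ r / σ) := by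
  obtain ⟨τ, hτ⟩ : ∃ τ : ℝ, τ = (2 : ℝ) ^ (-u * n) := ⟨_, rfl⟩
  have hτ0 : 0 < τ := by rw [hτ]; positivity
  have hκ := hP.hκ
  have hκ1 := hP.hκ1
  have hσ := hP.hσ
  have hσ1 := hP.hσ1
  have hρ0 := hn.ρ0
  obtain ⟨hη0, -, hη4⟩ := num_eta hκ hτ0 hP.hΛ hP.hσ hP.hσ1 r
  have hg0' : 0 < g := lt_trans (by positivity) hg
  have hnd := node_ndB hP (hg.le.trans hg1) hg0'.le hg1 hn hv hv1
  have hz := hP.hz
  rw [← hτ] at hg hz ⊢
  have hg0 : 0 < g := hτ0.trans hg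
  obtain ⟨W, hW, hVW⟩ := hI
  have hd : 0 < ρ + σ / 4 * g := by positivity
  have hsym := lin_symm (ham_herm (Letter.op G z) w a)
  -- the flattened Hamiltonian is close to the actual one on `W`
  have hNXW : ∀ y ∈ W, ‖y‖ ≤ 1 → ∃ b : ℕ → Sp n Y, b 0 = y ∧
      BC (lin (Ham (Letter.flt G δ z) w a)) E (ρ + σ / 4 * g) b := by
    intro y hy hy1
    obtain ⟨b, hb0, hb1, hb2⟩ := hA.chw (Sp n Y) _ E _ W hd hW y hy hy1
    exact ⟨b, hb0, hb1, hb2⟩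
  have hclose : ∀ y ∈ W, ‖(lin (Ham (Letter.op G z) w a) y - (E : ℂ) • y) -
      (lin (Ham (Letter.flt G δ z) w a) y - (E : ℂ) • y)‖ ≤ κ * τ * σ / 1600 * ‖y‖ := by
    intro y hy
    rw [sub_sub_sub_cancel_right, norm_sub_rev]
    rcases eq_or_ne y 0 with h0 | h0
    · rw [h0, map_zero, map_zero, sub_self, norm_zero, mul_zero]
    · have hy0 : 0 < ‖y‖ := norm_pos_iff.2 h0
      obtain ⟨x, hx⟩ : ∃ x : Sp n Y, x = ((‖y‖⁻¹ : ℝ) : ℂ) • y := ⟨_, rfl⟩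
      have hx1 : ‖x‖ = 1 := by
        rw [hx, norm_smul, Complex.norm_real, Real.norm_of_nonneg (by positivity)]
        exact inv_mul_cancel₀ hy0.ne'
      have hxW : x ∈ W := by
        rw [hx]
        exact W.smul_mem _ hy
      obtain ⟨b, hb0, hb⟩ := hNXW x hxW hx1.le
      have h1 := hz.g1 a E _ b hnd hb none
      have h2 := (NR_le_NX (G := G) (δ := δ) (r := r) (w := w) (z := z) _ _).trans h1
      rw [hb0] at h2
      have h3 := (ham_diff hP hn.coeff h2).trans hη4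
      have h4 : y = ((‖y‖ : ℝ) : ℂ) • x := by
        rw [hx, smul_smul, ← Complex.ofReal_mul, mul_inv_cancel₀ hy0.ne', Complex.ofReal_one,
          one_smul]
      have h5 : lin (Ham (Letter.flt G δ z) w a) y - lin (Ham (Letter.op G z) w a) y =
          ((‖y‖ : ℝ) : ℂ) • (lin (Ham (Letter.flt G δ z) w a) x -
            lin (Ham (Letter.op G z) w a) x) := by
        conv_lhs => rw [h4, map_smul, map_smul, ← smul_sub]
      rw [h5, norm_smul, Complex.norm_real, Real.norm_of_nonneg hy0.le, mul_comm]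
      exact mul_le_mul_of_nonneg_right h3 hy0.le
  have hs4 : σ / 4 * g ≤ g / 4 := by nlinarith
  have hsin := hA.sin (Sp n Y) (lin (Ham (Letter.op G z) w a)) (lin (Ham (Letter.flt G δ z) w a))
    hsym E E ρ (ρ + σ / 4 * g) g (κ * τ * σ / 1600) V W hn.ρ0 hd.le (by linarith)
    (by positivity) hn.bnd hW.inv hW.near hclose
  -- the distance of the subspaces
  have hω : ∀ y ∈ W, ∃ v ∈ V, (∀ w ∈ V, inner ℂ w (y - v) = 0) ∧
      ‖y - v‖ ≤ (κ * τ * σ / 800 / g) * ‖y‖ := by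
    intro y hy
    obtain ⟨v, h1, h2, h3⟩ := hsin y hy
    refine ⟨v, h1, h2, ?_⟩
    have h4 : g / 2 * ‖y - v‖ ≤ (ρ + g - (ρ + σ / 4 * g)) * ‖y - v‖ :=
      mul_le_mul_of_nonneg_right (by linarith) (norm_nonneg _)
    have h5 : κ * τ * σ / 800 / g * ‖y‖ = (κ * τ * σ / 1600 * ‖y‖) / (g / 2) := by
      field_simp
      ring
    rw [h5, le_div_iff₀ (by positivity)]
    linarith
  have hω1 : κ * τ * σ / 800 / g ≤ 1 / 2 := by
    rw [div_le_iff₀ hg0]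
    have h1 : κ * τ * σ ≤ τ := by
      have h2 : κ * τ ≤ τ := by nlinarith
      have h3 : 0 ≤ κ * τ := by positivity
      nlinarith
    linarith
  obtain ⟨y, hy, hy2, hyv⟩ := hA.sur (Sp n Y) V W _ hω1 hVW hω v hv
  rw [hv1, mul_one] at hy2
  have hy' : ((1 / 2 : ℂ)) • y ∈ W := W.smul_mem _ hy
  have hyn : ‖((1 / 2 : ℂ)) • y‖ ≤ 1 := by
    rw [norm_smul]
    have : ‖(1 / 2 : ℂ)‖ = 1 / 2 := by norm_num
    rw [this]
    linarith
  obtain ⟨b, hb0, hb⟩ := hNXW _ hy' hyn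
  refine ⟨b, hnd, hb, ?_, fun o => hz.g1 a E _ b hnd hb o⟩
  have h6 : (2 : ℂ) • b 0 - v = y - v := by
    rw [hb0, smul_smul]
    norm_num
  rw [h6]
  calc g * ‖y - v‖ ≤ g * (κ * τ * σ / 800 / g * ‖y‖) := mul_le_mul_of_nonneg_left hyv hg0.le
    _ = κ * τ * σ / 800 * ‖y‖ := by field_simp
    _ ≤ κ * τ * σ / 800 * 2 := mul_le_mul_of_nonneg_left hy2 (by positivity)
    _ = _ := by ring

/-- the output of a circuit, for nodes of the first type -/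
theorem out (hA : LA) (hP : ParB α κ Λ t u σ ε δ ν c r A G w T z)
    (hg : (2 : ℝ) ^ (-u * n) < g) (hg1 : g ≤ 1) {a : Fin p → ℝ} {E ρ : ℝ}
    {V : Submodule ℂ (Sp n Y)} (hn : NodeB α κ Λ g c A G w z a E ρ V)
    (hI : TypeB (σ / 4 * g) δ G w z a E ρ V) {v : Sp n Y} (hv : v ∈ V) (hv1 : ‖v‖ = 1)
    (o : Option (Fin q)) :
    ‖nearP (hball δ z) (lin (circ (Letter.op G z) w z (Tw T o)) v)‖ ≤
      (2 : ℝ) ^ (-u * n) / g := by
  obtain ⟨b, -, hb, hbv, hNX⟩ := core hA hP hg hg1 hn hI hv hv1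
  obtain ⟨τ, hτ⟩ : ∃ τ : ℝ, τ = (2 : ℝ) ^ (-u * n) := ⟨_, rfl⟩
  have hτ0 : 0 < τ := by rw [hτ]; positivity
  have hκ := hP.hκ
  have hκ1 := hP.hκ1
  have hσ := hP.hσ
  have hσ1 := hP.hσ1
  obtain ⟨hη0, hη1, -⟩ := num_eta hκ hτ0 hP.hΛ hP.hσ hP.hσ1 r
  rw [← hτ] at hg hbv hNX ⊢
  have hg0 : 0 < g := hτ0.trans hg
  obtain ⟨Xo, hXo⟩ : ∃ X, X = lin (circ (Letter.op G z) w z (Tw T o)) := ⟨_, rfl⟩
  obtain ⟨Xf, hXf⟩ : ∃ X, X = lin (circF G δ w z (Tw T o)) := ⟨_, rfl⟩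
  have hcd := circ_diff hP.hS z w hP.hw hP.hr (Tw T o) (Tw_okB hP o) (b 0)
  have hnχ := norm_circ (Letter.op G z) w z (Tw T o) (Tw_okB hP o) ((2 : ℂ) • b 0 - v)
  have hnear := near_le_NR G δ w z (lin (circF G δ w z (Tw T o)) (b 0))
  have hNXo := hNX o
  unfold NX at hNXo
  have hNR0 := NR_nonneg G δ w z (b 0)
  rw [← hXo] at hcd hnχ ⊢
  rw [← hXf] at hcd hnear hNXo
  have h2 : nearP (hball δ z) (Xo v) =
      (2 : ℂ) • (nearP (hball δ z) (Xf (b 0)) - nearP (hball δ z) (Xf (b 0) - Xo (b 0))) -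
        nearP (hball δ z) (Xo ((2 : ℂ) • b 0 - v)) := by
    rw [← map_sub, sub_sub_cancel, ← map_smul, ← map_sub, map_sub Xo, map_smul, sub_sub_cancel]
  have h3 : ‖nearP (hball δ z) (Xo v)‖ ≤ 2 * (κ * τ / 6400) + ‖(2 : ℂ) • b 0 - v‖ := by
    rw [h2]
    refine (norm_sub_le _ _).trans (add_le_add ?_ ((norm_nearP_le _ _).trans hnχ))
    rw [norm_smul]
    have h4 : ‖(2 : ℂ)‖ = 2 := by norm_num
    rw [h4]
    refine mul_le_mul_of_nonneg_left ((norm_sub_le _ _).trans ?_) zero_le_two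
    have h5 := (norm_nearP_le (hball δ z) (Xf (b 0) - Xo (b 0))).trans hcd
    linarith
  rw [le_div_iff₀ hg0]
  have h4 : g * ‖nearP (hball δ z) (Xo v)‖ ≤ g * (2 * (κ * τ / 6400) + ‖(2 : ℂ) • b 0 - v‖) :=
    mul_le_mul_of_nonneg_left h3 hg0.le
  have h6 : g * (2 * (κ * τ / 6400)) ≤ 2 * (κ * τ / 6400) := by
    have : 0 ≤ κ * τ / 6400 := by positivity
    nlinarith
  have h7 : κ * τ ≤ τ := by nlinarith
  have h8 : κ * τ * σ ≤ κ * τ := by
    have : 0 ≤ κ * τ := by positivity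
    nlinarith
  nlinarith

/-- the first node has the first type -/
theorem start (hA : LA) (hs : 0 < σ / 4 * g) {a : Fin p → ℝ} {E ρ : ℝ}
    {V : Submodule ℂ (Sp n Y)} (hn : NodeB α κ Λ g c A G w z a E ρ V)
    (ha : ∀ i, a i ≠ 0 → ∀ l ∈ w i, l.Free) : TypeB (σ / 4 * g) δ G w z a E ρ V := by
  have hρ0 := hn.ρ0
  have hd : 0 < ρ + σ / 4 * g := by positivity
  have hsym := lin_symm (ham_herm (Letter.flt G δ z) w a)
  obtain ⟨W, hW⟩ := hA.spc (Sp n Y) (lin (Ham (Letter.flt G δ z) w a)) hsym E _ hd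
  refine ⟨W, hW, ?_⟩
  have hbnd : BA.Bnd (lin (Ham (Letter.flt G δ z) w a)) E (ρ + σ / 4 * g) 0 W :=
    ⟨hW.inv, hW.near, fun v hv => by rw [add_zero]; exact hW.far v hv⟩
  have h1 := hA.sin (Sp n Y) (lin (Ham (Letter.flt G δ z) w a))
    (lin (Ham (Letter.op G z) w a)) hsym E E (ρ + σ / 4 * g) ρ 0 0 W V hd.le hρ0 (by linarith)
    le_rfl hbnd hn.bnd.inv hn.bnd.near (fun y hy => by
      rw [ham_start z w a ha, sub_self, norm_zero, zero_mul])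
  refine Submodule.finrank_mono fun y hy => ?_
  obtain ⟨v, hv, -, h2⟩ := h1 y hy
  rw [zero_mul] at h2
  have h3 : ‖y - v‖ = 0 := by
    have h4 := norm_nonneg (y - v)
    have h5 : 0 < ρ + σ / 4 * g + 0 - ρ := by linarith
    by_contra h6
    have h7 : 0 < ‖y - v‖ := lt_of_le_of_ne h4 (Ne.symm h6)
    nlinarith
  have h4 : y = v := sub_eq_zero.1 (norm_eq_zero.1 h3)
  rw [h4]
  exact hv

end chain

end Pool.Agent.H73.AY.BI
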