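import Pool.Agent.H73.BA.ChainA
import Pool.Agent.H86.AY.ChainB

/-! Good assignments are hard for bands, part 2: the chain argument. -/

namespace Pool.Agent.H73.AY.BI

open Finset Matrix Pool.Agent.H73.QA Pool.Agent.H73.AD Pool.Agent.H73.AZ

set_option linter.unusedSectionVars false
set_option linter.deprecated false

variable {n k m : ℕ} {Y : Type} [Fintype Y] [DecidableEq Y] {p q r : ℕ}

section chain
variable {α κ Λ t u σ ε δ ν g c : ℝ} {A : Set (Fin p → ℝ)} {G : Fin m → Clause n k}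
    {w : Fin p → List (Letter n m Y)} {T : Fin q → List (Gate n p Y)} {z : Cube n}

theorem step (hA : LA) (hP : ParB α κ Λ t u σ ε δ ν c r A G w T z)
    (hg : (2 : ℝ) ^ (-u * n) < g) (hg1 : g ≤ 1) {a a' : Fin p → ℝ} {E E' ρ ρ' : ℝ}
    {V V' : Submodule ℂ (Sp n Y)} (hn : NodeB α κ Λ g c A G w z a E ρ V)
    (hI : TypeB (σ / 4 * g) δ G w z a E ρ V) (hn' : NodeB α κ Λ g c A G w z a' E' ρ' V')
    (ho : ∀ v' ∈ V', ‖v'‖ = 1 → ∃ o : Option (Fin q), ∃ v ∈ V, ‖v‖ = 1 ∧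
      (2 : ℝ) ^ (-u * n) / g < ‖inner ℂ v' (lin (circ (Letter.op G z) w z (Tw T o)) v)‖) :
    TypeB (σ / 4 * g) δ G w z a' E' ρ' V' := by
  by_contra hI'
  have hρ0 := hn.ρ0
  have hρ0' := hn'.ρ0
  have hκ := hP.hκ
  have hκ1 := hP.hκ1
  have hσ := hP.hσ
  have hσ1 := hP.hσ1
  have hg0' : 0 < g := lt_trans (by positivity) hg
  have hd' : 0 < ρ' + σ / 4 * g := by positivity
  obtain ⟨W', hW'⟩ := hA.spc (Sp n Y) (lin (Ham (Letter.flt G δ z) w a'))
    (lin_symm (ham_herm (Letter.flt G δ z) w a')) E' _ hd'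
  obtain ⟨ψ, hψ, hψ1, hψW⟩ := hA.ort (Sp n Y) V' W' fun h => hI' ⟨W', hW', h⟩
  obtain ⟨o, v, hv, hv1, hov⟩ := ho ψ hψ hψ1
  obtain ⟨b, hnd, hb, hbv, hNX⟩ := core hA hP hg hg1 hn hI hv hv1
  have hnd' := node_ndB hP (hg.le.trans hg1) hg0'.le hg1 hn' hψ hψ1
  obtain ⟨τ, hτ⟩ : ∃ τ : ℝ, τ = (2 : ℝ) ^ (-u * n) := ⟨_, rfl⟩
  have hτ0 : 0 < τ := by rw [hτ]; positivity
  obtain ⟨hη0, hη1, hη4⟩ := num_eta hκ hτ0 hP.hΛ hP.hσ hP.hσ1 r
  have hz := hP.hz
  rw [← hτ] at hg hbv hNX hov hz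
  have hg0 : 0 < g := hτ0.trans hg
  have hcd := circ_diff hP.hS z w hP.hw hP.hr (Tw T o) (Tw_okB hP o) (b 0)
  have hnχ := norm_circ (Letter.op G z) w z (Tw T o) (Tw_okB hP o) ((2 : ℂ) • b 0 - v)
  have hflt := norm_circF δ w z (Tw T o) (Tw_okB hP o) (b 0)
  have hNXo := hNX o
  unfold NX at hNXo
  have hNR0 := NR_nonneg G δ w z (b 0)
  have hNR1 := NR_nonneg G δ w z (lin (circF G δ w z (Tw T o)) (b 0))
  have hdf : ‖lin (circF G δ w z (Tw T o)) (b 0) -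
      lin (circ (Letter.op G z) w z (Tw T o)) (b 0)‖ ≤ κ * τ / 6400 := by linarith
  obtain ⟨x, hx⟩ : ∃ x, x = lin (circF G δ w z (Tw T o)) (b 0) := ⟨_, rfl⟩
  rw [← hx] at hdf hflt
  have hx1 : ‖x‖ ≤ 1 := hflt.trans (hb.1 0)
  -- the resolvent chain
  obtain ⟨b0, f, hb0W, hb01, hperp, hqb, hf1, hf0, hfs⟩ := hA.chr (Sp n Y)
    (lin (Ham (Letter.flt G δ z) w a')) E' _ W' hd' hW' x hx1
  obtain ⟨b', hb'0, hb'1, hb's⟩ := hA.chw (Sp n Y) _ E' _ W' hd' hW' b0 hb0W hb01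
  have hNR := hz.g2 a E _ b hnd hb o a' E' _ b' hnd' ⟨hb'1, hb's⟩ f hf1 (by
    rw [hb'0, ← hx]
    exact hf0) hfs
  have hjmp := hA.jmp (Sp n Y) (lin (Ham (Letter.op G z) w a'))
    (lin (Ham (Letter.flt G δ z) w a')) (lin_symm (ham_herm (Letter.op G z) w a')) E' ρ'
    (ρ' + σ / 4 * g) (κ * τ * σ / 1600) V' (x - b0) f hρ0'
    (by have : 0 < σ / 4 * g := by positivity
        linarith) (by positivity) hn'.bnd.inv hn'.bnd.near hqb hf1 hf0 hfs
    (fun i => (ham_diff hP hn'.coeff (hNR i)).trans hη4) ψ hψ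
  rw [hψ1, mul_one] at hjmp
  have hψb : inner ℂ ψ b0 = 0 := inner_eq_zero_symm.1 (hψW b0 hb0W)
  rw [inner_sub_right, hψb, sub_zero] at hjmp
  have h5 : g * ‖(inner ℂ ψ x : ℂ)‖ ≤ κ * τ / 400 := by
    have h6 : σ * (g * ‖(inner ℂ ψ x : ℂ)‖) ≤ σ * (κ * τ / 400) := by
      have h7 : (ρ' + σ / 4 * g - ρ') * ‖(inner ℂ ψ x : ℂ)‖ =
          σ * (g * ‖(inner ℂ ψ x : ℂ)‖) / 4 := by ring
      rw [h7] at hjmp
      linarith
    exact le_of_mul_le_mul_left h6 hσ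
  -- the actual circuit
  have h6 : inner ℂ ψ (lin (circ (Letter.op G z) w z (Tw T o)) v) =
      2 * (inner ℂ ψ x - inner ℂ ψ (x - lin (circ (Letter.op G z) w z (Tw T o)) (b 0))) -
        inner ℂ ψ (lin (circ (Letter.op G z) w z (Tw T o)) ((2 : ℂ) • b 0 - v)) := by
    rw [map_sub, map_smul, inner_sub_right, inner_sub_right, inner_smul_right]
    ring
  have h7 : ‖inner ℂ ψ (lin (circ (Letter.op G z) w z (Tw T o)) ((2 : ℂ) • b 0 - v))‖ ≤
      ‖(2 : ℂ) • b 0 - v‖ := by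
    refine (norm_inner_le_norm _ _).trans ?_
    rw [hψ1, one_mul]
    exact hnχ
  have h7' : ‖inner ℂ ψ (x - lin (circ (Letter.op G z) w z (Tw T o)) (b 0))‖ ≤
      κ * τ / 6400 := by
    refine (norm_inner_le_norm _ _).trans ?_
    rw [hψ1, one_mul]
    exact hdf
  have h8 : ‖inner ℂ ψ (lin (circ (Letter.op G z) w z (Tw T o)) v)‖ ≤
      2 * (‖(inner ℂ ψ x : ℂ)‖ + κ * τ / 6400) + ‖(2 : ℂ) • b 0 - v‖ := by
    rw [h6]
    refine (norm_sub_le _ _).trans (add_le_add ?_ h7)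
    rw [norm_mul]
    have h4 : ‖(2 : ℂ)‖ = 2 := by norm_num
    rw [h4]
    exact mul_le_mul_of_nonneg_left ((norm_sub_le _ _).trans (add_le_add le_rfl h7'))
      zero_le_two
  rw [div_lt_iff₀ hg0] at hov
  have h9 := mul_le_mul_of_nonneg_left h8 hg0.le
  have h11 : g * (κ * τ / 6400) ≤ κ * τ / 6400 := by
    have : 0 ≤ κ * τ / 6400 := by positivity
    nlinarith
  have h12 : κ * τ ≤ τ := by nlinarith
  have h13 : κ * τ * σ ≤ κ * τ := by
    have : 0 ≤ κ * τ := by positivity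
    nlinarith
  nlinarith

theorem lin_circ_none (hv : Sp n Y) :
    lin (circ (Letter.op G z) w z (Tw T none)) hv = hv := by
  change lin (circ (Letter.op G z) w z []) _ = _
  unfold circ
  rw [List.map_nil, List.prod_nil, lin_one']

/-- bands of close Hamiltonians are close -/
theorem near_band (hA : LA) {τ ε1 : ℝ} (hg0 : 0 < g) (hε1 : 0 < ε1)
    (hε2 : 4 * ε1 / g < 1 - τ / g) (hτ : 0 < τ) {a a' : Fin p → ℝ} {E E' ρ ρ' : ℝ}
    {V V' : Submodule ℂ (Sp n Y)} (hn : NodeB α κ Λ g c A G w z a E ρ V)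
    (hn' : NodeB α κ Λ g c A G w z a' E' ρ' V')
    (h1 : esum (Ham (Letter.op G z) w a - Ham (Letter.op G z) w a') ≤ ε1)
    (h2 : |E - E'| ≤ ε1) (h3 : |ρ - ρ'| ≤ ε1) :
    ∀ v' ∈ V', ‖v'‖ = 1 → ∃ v ∈ V, ‖v‖ = 1 ∧ τ / g < ‖(inner ℂ v' v : ℂ)‖ := by
  intro y hy hy1
  have hr0 : 0 < τ / g := div_pos hτ hg0
  have hε3 : 4 * ε1 < g := by
    have h4 : 4 * ε1 / g < 1 := by linarith
    rwa [div_lt_one hg0] at h4
  have h3' := (abs_le.1 h3).1
  obtain ⟨v, hv, hperp, hle⟩ := hA.sin (Sp n Y) (lin (Ham (Letter.op G z) w a))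
    (lin (Ham (Letter.op G z) w a')) (lin_symm (ham_herm (Letter.op G z) w a)) E E' ρ ρ' g
    (2 * ε1) V V' hn.ρ0 hn'.ρ0 (by linarith) (by positivity) hn.bnd hn'.bnd.inv hn'.bnd.near
    (fun y hy => by
      have h4 : lin (Ham (Letter.op G z) w a) y - (E : ℂ) • y -
          (lin (Ham (Letter.op G z) w a') y - (E' : ℂ) • y) =
          lin (Ham (Letter.op G z) w a - Ham (Letter.op G z) w a') y -
            ((E - E' : ℝ) : ℂ) • y := by
        rw [lin_sub, LinearMap.sub_apply]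
        push_cast
        module
      rw [h4]
      refine (norm_sub_le _ _).trans ?_
      have h5 := (norm_lin_le_esum (Ham (Letter.op G z) w a - Ham (Letter.op G z) w a') y).trans
        (mul_le_mul_of_nonneg_right h1 (norm_nonneg _))
      have h6 : ‖((E - E' : ℝ) : ℂ) • y‖ ≤ ε1 * ‖y‖ := by
        rw [norm_smul, Complex.norm_real, Real.norm_eq_abs]
        exact mul_le_mul_of_nonneg_right h2 (norm_nonneg _)
      have h7 : ‖lin (Ham (Letter.op G z) w a - Ham (Letter.op G z) w a') y‖ ≤ ε1 * ‖y‖ := h5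
      linarith) y hy
  rw [hy1, mul_one] at hle
  have h4 : g / 2 * ‖y - v‖ ≤ 2 * ε1 := by
    refine le_trans (mul_le_mul_of_nonneg_right ?_ (norm_nonneg _)) hle
    linarith
  have h5 : ‖y - v‖ ≤ 4 * ε1 / g := by
    rw [le_div_iff₀ hg0]
    linarith
  have h6 : 1 - ‖y - v‖ ≤ ‖v‖ := by
    have h7 := norm_sub_le y (y - v)
    rw [sub_sub_cancel] at h7
    have h8 : ‖y‖ ≤ ‖v‖ + ‖y - v‖ := by
      have := norm_add_le v (y - v)
      rwa [add_sub_cancel] at this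
    linarith
  have h7 : τ / g < ‖v‖ := by linarith
  have h8 : 0 < ‖v‖ := hr0.trans h7
  refine ⟨((‖v‖⁻¹ : ℝ) : ℂ) • v, V.smul_mem _ hv, ?_, ?_⟩
  · rw [norm_smul, Complex.norm_real, Real.norm_of_nonneg (by positivity)]
    exact inv_mul_cancel₀ h8.ne'
  · have h9 : inner ℂ y v = ((‖v‖ : ℝ) : ℂ) ^ 2 := by
      have h10 : inner ℂ v (y - v) = 0 := hperp v hv
      rw [inner_sub_right, sub_eq_zero] at h10
      rw [← inner_conj_symm, h10, inner_self_eq_norm_sq_to_K]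
      simp
    rw [inner_smul_right, h9, norm_mul, norm_pow, Complex.norm_real, Complex.norm_real,
      Real.norm_of_nonneg (by positivity), Real.norm_of_nonneg h8.le]
    have h10 : ‖v‖⁻¹ * ‖v‖ ^ 2 = ‖v‖ := by field_simp
    rw [h10]
    exact h7

/-- all nodes of a continuous path have the same type -/
theorem path (hA : LA) (hP : ParB α κ Λ t u σ ε δ ν c r A G w T z)
    (hg : (2 : ℝ) ^ (-u * n) < g) (hg1 : g ≤ 1) {a : ℝ → Fin p → ℝ} {E ρ : ℝ → ℝ}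
    {V : ℝ → Submodule ℂ (Sp n Y)}
    (ha : ContinuousOn a (Set.Icc 0 1)) (hE : ContinuousOn E (Set.Icc 0 1))
    (hρ : ContinuousOn ρ (Set.Icc 0 1))
    (hn : ∀ s ∈ Set.Icc (0 : ℝ) 1, NodeB α κ Λ g c A G w z (a s) (E s) (ρ s) (V s))
    (h0 : TypeB (σ / 4 * g) δ G w z (a 0) (E 0) (ρ 0) (V 0)) {s : ℝ}
    (hs : s ∈ Set.Icc (0 : ℝ) 1) :
    TypeB (σ / 4 * g) δ G w z (a s) (E s) (ρ s) (V s) := by
  obtain ⟨τ, hτ⟩ : ∃ τ : ℝ, τ = (2 : ℝ) ^ (-u * n) := ⟨_, rfl⟩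
  have hτ0 : 0 < τ := by rw [hτ]; positivity
  have hg0 : 0 < g := by rw [← hτ] at hg; exact hτ0.trans hg
  have ha' : Continuous fun s : Set.Icc (0 : ℝ) 1 => a s := ha.restrict
  have hE' : Continuous fun s : Set.Icc (0 : ℝ) 1 => E s := hE.restrict
  have hρ' : Continuous fun s : Set.Icc (0 : ℝ) 1 => ρ s := hρ.restrict
  have hH := continuous_Ham (Letter.op G z) w ha'
  have hr : τ / g < 1 := by
    rw [div_lt_one hg0, hτ]
    exact hg
  have hr0 : 0 < τ / g := div_pos hτ0 hg0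
  -- a step size
  obtain ⟨ε1, hε⟩ : ∃ ε1 : ℝ, ε1 = g / 8 * (1 - τ / g) := ⟨_, rfl⟩
  have hε1 : 0 < ε1 := by
    rw [hε]
    exact mul_pos (by positivity) (by linarith)
  have hε2 : 4 * ε1 / g < 1 - τ / g := by
    have h1 : 4 * ε1 / g = (1 - τ / g) / 2 := by
      rw [hε]
      field_simp
      ring
    rw [h1]
    linarith
  have hloc : IsLocallyConstant fun s : Set.Icc (0 : ℝ) 1 =>
      TypeB (σ / 4 * g) δ G w z (a s) (E s) (ρ s) (V s) := by
    rw [IsLocallyConstant.iff_eventually_eq]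
    intro s0
    have h1 : ∀ᶠ s : Set.Icc (0 : ℝ) 1 in nhds s0,
        esum (Ham (Letter.op G z) w (a s) - Ham (Letter.op G z) w (a s0)) < ε1 := by
      have h2 : Continuous fun s : Set.Icc (0 : ℝ) 1 =>
          esum (Ham (Letter.op G z) w (a s) - Ham (Letter.op G z) w (a s0)) :=
        continuous_esum.comp (hH.sub continuous_const)
      have h3 := h2.tendsto s0
      rw [sub_self] at h3
      have h4 : esum (0 : Op n Y) = 0 := by
        unfold esum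
        simp
      rw [h4] at h3
      exact h3.eventually (gt_mem_nhds hε1)
    have h1' : ∀ᶠ s : Set.Icc (0 : ℝ) 1 in nhds s0,
        esum (Ham (Letter.op G z) w (a s0) - Ham (Letter.op G z) w (a s)) < ε1 := by
      have h2 : Continuous fun s : Set.Icc (0 : ℝ) 1 =>
          esum (Ham (Letter.op G z) w (a s0) - Ham (Letter.op G z) w (a s)) :=
        continuous_esum.comp (continuous_const.sub hH)
      have h3 := h2.tendsto s0
      rw [sub_self] at h3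
      have h4 : esum (0 : Op n Y) = 0 := by
        unfold esum
        simp
      rw [h4] at h3
      exact h3.eventually (gt_mem_nhds hε1)
    have h2 : ∀ᶠ s : Set.Icc (0 : ℝ) 1 in nhds s0, |E s - E s0| < ε1 := by
      have h3 : Continuous fun s : Set.Icc (0 : ℝ) 1 => |E s - E s0| :=
        (hE'.sub continuous_const).abs
      have h4 := h3.tendsto s0
      rw [sub_self, abs_zero] at h4
      exact h4.eventually (gt_mem_nhds hε1)
    have h3 : ∀ᶠ s : Set.Icc (0 : ℝ) 1 in nhds s0, |ρ s - ρ s0| < ε1 := by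
      have h3 : Continuous fun s : Set.Icc (0 : ℝ) 1 => |ρ s - ρ s0| :=
        (hρ'.sub continuous_const).abs
      have h4 := h3.tendsto s0
      rw [sub_self, abs_zero] at h4
      exact h4.eventually (gt_mem_nhds hε1)
    filter_upwards [h1, h1', h2, h3] with s hs1 hs1' hs2 hs3
    have hn0 := hn s0 s0.2
    have hns := hn s s.2
    have h4 := near_band hA hg0 hε1 hε2 hτ0 hns hn0 hs1.le hs2.le hs3.le
    have h5 := near_band hA hg0 hε1 hε2 hτ0 hn0 hns hs1'.le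
      (by rw [abs_sub_comm]; exact hs2.le) (by rw [abs_sub_comm]; exact hs3.le)
    rw [hτ] at h4 h5
    refine propext ⟨fun h8 => ?_, fun h8 => ?_⟩
    · refine step hA hP hg hg1 hns h8 hn0 fun v' hv' hv1' => ?_
      obtain ⟨v, hv, hv1, hov⟩ := h4 v' hv' hv1'
      refine ⟨none, v, hv, hv1, ?_⟩
      rw [lin_circ_none]
      exact hov
    · refine step hA hP hg hg1 hn0 h8 hns fun v' hv' hv1' => ?_
      obtain ⟨v, hv, hv1, hov⟩ := h5 v' hv' hv1'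
      refine ⟨none, v, hv, hv1, ?_⟩
      rw [lin_circ_none]
      exact hov
  have h1 := hloc.apply_eq_of_preconnectedSpace (⟨0, by simp⟩ : Set.Icc (0 : ℝ) 1) ⟨s, hs⟩
  simp only at h1
  rw [← h1]
  exact h0

end chain

/-- the subspace in the Hilbert space -/
def toSp (V : Submodule ℂ (Cube n × Y → ℂ)) : Submodule ℂ (Sp n Y) :=
  V.comap (WithLp.linearEquiv 2 ℂ (Cube n × Y → ℂ)).toLinearMap

theorem mem_toSp (V : Submodule ℂ (Cube n × Y → ℂ)) (x : Sp n Y) :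
    x ∈ toSp V ↔ WithLp.ofLp x ∈ V := Iff.rfl

theorem toLp_mem_toSp (V : Submodule ℂ (Cube n × Y → ℂ)) (x : Cube n × Y → ℂ) :
    (WithLp.toLp 2 x : Sp n Y) ∈ toSp V ↔ x ∈ V := Iff.rfl

theorem bnd_toSp {H : Op n Y} {g E ρ : ℝ} {V : Submodule ℂ (Cube n × Y → ℂ)}
    (hρ : 0 ≤ ρ) (h : BA.Band H g E ρ V) : BA.Bnd (lin H) E ρ g (toSp V) := by
  obtain ⟨h1, h2⟩ := h
  refine ⟨fun v hv => ?_, fun v hv => ?_, fun v hv => ?_⟩
  · exact (h1 (WithLp.ofLp v) hv).1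
  · have h3 := (h1 (WithLp.ofLp v) hv).2
    rw [nsq_eq, nsq_eq, ← mul_pow] at h3
    exact le_of_sq_le_sq h3 (mul_nonneg hρ (norm_nonneg _))
  · have h3 := h2 (WithLp.ofLp v) fun w hw => by
      have h4 := hv (WithLp.toLp 2 w) hw
      have h5 := inner_toLp' w (WithLp.ofLp v)
      rw [← h5]
      exact h4
    rw [nsq_eq, nsq_eq, ← mul_pow] at h3
    exact le_of_sq_le_sq h3 (norm_nonneg _)

theorem nsq_ofLp {v : Sp n Y} (h : ‖v‖ = 1) : nsq (WithLp.ofLp v) = 1 := by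
  rw [nsq_eq]
  change ‖v‖ ^ 2 = 1
  rw [h, one_pow]

theorem hard_of_goodB (hA : LA) {α κ Λ t u σ ε δ ν c : ℝ} {A : Set (Fin p → ℝ)} (hκ : 0 < κ)
    (hκ1 : κ ≤ 1) (hΛ : 0 ≤ Λ) (hσ : 0 < σ) (hσ1 : σ ≤ 1) (hcσ : c ≤ σ / 2) (hcκ : c ≤ κ / 8)
    {G : Fin m → Clause n k} (hS : Std ε δ ν t r G)
    (hsm : Λ * (r * 2 ^ (r + 1)) * (ν + ε + 2 / Real.sqrt (2 ^ k)) ≤ κ / 4)
    (w : Fin p → List (Letter n m Y))
    (T : Fin q → List (Gate n p Y)) (hw : ∀ i, ∀ l ∈ w i, l.Ok t r G)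
    (hr : ∀ i, (w i).length ≤ r) (hT : ∀ j, ∀ c ∈ T j, c.Ok t G) (z : Cube n)
    (hz : GoodB α κ (Λ + 1) σ δ (κ * (2 : ℝ) ^ (-u * n) / (6400 * (Λ + 1) * 4 ^ r / σ))
      r A G w T z) :
    BA.Hard α κ Λ t u c A G w T z := by
  have hP : ParB α κ Λ t u σ ε δ ν c r A G w T z :=
    ⟨hκ, hκ1, hΛ, hσ, hσ1, hcσ, hcκ, hS, hsm, hw, hr, hT, hz⟩
  intro g l a E ρ V hg hg1 ha0 hpath hjump j L hL v hv hv1
  have hτ0 : (0 : ℝ) < (2 : ℝ) ^ (-u * n) := by positivity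
  have hg0 : 0 < g := hτ0.trans hg
  have hnode : ∀ i ≤ l, ∀ s ∈ Set.Icc (0 : ℝ) 1,
      NodeB α κ Λ g c A G w z (a i s) (E i s) (ρ i s) (toSp (V i s)) := by
    intro i hi s hs
    obtain ⟨h0, h1, h2, h3, h4, h5⟩ := (hpath i hi).2.2.2 s hs
    exact ⟨h0, h1, h2, h3, bnd_toSp h2 h4, h5⟩
  have h01 : (0 : ℝ) ∈ Set.Icc (0 : ℝ) 1 := by simp
  have h11 : (1 : ℝ) ∈ Set.Icc (0 : ℝ) 1 := by simp
  have hall : ∀ i ≤ l, ∀ s ∈ Set.Icc (0 : ℝ) 1,
      TypeB (σ / 4 * g) δ G w z (a i s) (E i s) (ρ i s) (toSp (V i s)) := by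
    intro i
    induction i with
    | zero =>
      intro hi s hs
      have h1 := hpath 0 hi
      exact path hA hP hg hg1 h1.1 h1.2.1 h1.2.2.1 (hnode 0 hi)
        (start hA (by positivity) (hnode 0 hi 0 h01) ha0) hs
    | succ i ih =>
      intro hi s hs
      have h1 := hpath (i + 1) hi
      have hi' : i ≤ l := by omega
      refine path hA hP hg hg1 h1.1 h1.2.1 h1.2.2.1 (hnode (i + 1) hi)
        (step hA hP hg hg1 (hnode i hi' 1 h11) (ih hi' 1 h11) (hnode (i + 1) hi 0 h01)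
          fun v' hv' hv1' => ?_) hs
      obtain ⟨j, v, hv, hv1, hov⟩ := hjump i (by omega) (WithLp.ofLp v') hv' (nsq_ofLp hv1')
      refine ⟨some j, WithLp.toLp 2 v, hv, norm_one_of_nsq hv1, ?_⟩
      have h9 : inner ℂ v' (lin (circ (Letter.op G z) w z (Tw T (some j)))
          (WithLp.toLp 2 v : Sp n Y)) =
          star (WithLp.ofLp v') ⬝ᵥ circ (Letter.op G z) w z (T j) *ᵥ v := by
        rw [lin_eq, lin_toLp]
        exact inner_toLp' (WithLp.ofLp v') _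
      rw [h9]
      exact hov
  have h2 := out hA hP hg hg1 (hnode l le_rfl 1 h11) (hall l le_rfl 1 h11)
    (v := WithLp.toLp 2 v) hv (norm_one_of_nsq hv1) (some j)
  refine le_trans ?_ h2
  have h9 : lin (circ (Letter.op G z) w z (Tw T (some j))) (WithLp.toLp 2 v : Sp n Y) =
      WithLp.toLp 2 (circ (Letter.op G z) w z (T j) *ᵥ v) := by
    rw [lin_eq, lin_toLp]
    rfl
  rw [h9, ← Real.sqrt_sq (norm_nonneg (nearP (hball δ z)
    (WithLp.toLp 2 (circ (Letter.op G z) w z (T j) *ᵥ v) : Sp n Y))), nearP_sq]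
  refine Real.sqrt_le_sqrt (sum_le_sum_of_subset_of_nonneg ?_ fun x _ _ =>
    sum_nonneg fun y _ => sq_nonneg _)
  intro x hx
  by_contra hxB
  exact hxB (near_sol hS.hm hS.hG hS.ht z x (hL x hx))

end Pool.Agent.H73.AY.BI
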