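import Pool.Agent.H73.AD.Good

/-! Chains of nearly fixed equations form good families. -/

namespace Pool.Agent.H73.BA

open Finset Pool.Agent.H73.AD

section

variable {Z : Type} [Fintype Z] {E : Type} [NormedAddCommGroup E] [InnerProductSpace ℂ E]

/-- iteration of a chain of equations -/
theorem iterateC {β K1 K2 θ1 θ2 cp : ℝ} (hβ : 0 ≤ β) (hθ1 : 0 ≤ θ1) (hθ2 : 0 ≤ θ2)
    {X D : Z → E →ₗ[ℂ] E} (hX : GoodOp β K1 X) (hD : GoodOp β K2 D)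
    (hXs : ∀ z u, ‖X z u‖ ≤ θ1 * ‖u‖) (hDs : ∀ z u, ‖D z u‖ ≤ θ2 * ‖u‖)
    {v p : ℕ → Z → E} (hp : ∀ j, Good β cp (p j)) (hv : ∀ j z, ‖v j z‖ ≤ 1)
    (h : ∀ j z, v j z = p j z + (X z (v j z) + D z (v (j + 1) z))) (J : ℕ)
    (hJ : (θ1 + θ2) ^ J * Real.sqrt (Fintype.card Z) ≤ β) (j : ℕ) :
    Good β (cp * (∑ i ∈ range J, (K1 + K2) ^ i) + 1) (v j) := by
  have hK1 := hX.1
  have hK2 := hD.1
  have key : ∀ (J j : ℕ), ∃ A B : Z → E, (∀ z, v j z = A z + B z) ∧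
      Good β (cp * ∑ i ∈ range J, (K1 + K2) ^ i) A ∧ ∀ z, ‖B z‖ ≤ (θ1 + θ2) ^ J := by
    intro J
    induction J with
    | zero =>
      intro j
      refine ⟨fun _ => 0, v j, fun z => by simp, ?_, fun z => by rw [pow_zero]; exact hv j z⟩
      rw [range_zero, sum_empty, mul_zero]
      exact Good.zero hβ le_rfl
    | succ J ih =>
      intro j
      obtain ⟨A, B, h1, h2, h3⟩ := ih j
      obtain ⟨A', B', k1, k2, k3⟩ := ih (j + 1)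
      refine ⟨fun z => p j z + (X z (A z) + D z (A' z)), fun z => X z (B z) + D z (B' z),
        fun z => ?_, ?_, fun z => ?_⟩
      · beta_reduce
        rw [h j z, h1 z, k1 z, map_add, map_add]
        abel
      · have h4 := (hp j).add ((hX.2 _ _ h2).add (hD.2 _ _ k2))
        refine h4.mono hβ (le_of_eq ?_)
        rw [sum_range_succ', pow_zero]
        simp only [pow_succ']
        rw [← mul_sum]
        ring
      · refine (norm_add_le _ _).trans ?_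
        have h4 := (hXs z (B z)).trans (mul_le_mul_of_nonneg_left (h3 z) hθ1)
        have h5 := (hDs z (B' z)).trans (mul_le_mul_of_nonneg_left (k3 z) hθ2)
        rw [pow_succ']
        linarith
  obtain ⟨A, B, h1, h2, h3⟩ := key J j
  have h4 : Good β 1 B := by
    refine good_of_l2 zero_le_one ?_
    rw [mul_one]
    refine le_trans ?_ hJ
    have h0 : 0 ≤ (θ1 + θ2) ^ J := by positivity
    refine l2_le_of (by positivity) ?_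
    rw [mul_pow, Real.sq_sqrt (Nat.cast_nonneg _)]
    calc ∑ z, ‖B z‖ ^ 2 ≤ ∑ _z : Z, ((θ1 + θ2) ^ J) ^ 2 :=
          sum_le_sum fun z _ => pow_le_pow_left₀ (norm_nonneg _) (h3 z) 2
      _ = _ := by
          rw [sum_const, nsmul_eq_mul, card_univ]
          ring
  have h5 := h2.add h4
  have h6 : (fun z => A z + B z) = v j := by
    funext z
    exact (h1 z).symm
  rwa [h6] at h5

theorem masterC {ι : Type} {κ₀ β σ K0 cu b0 s0 r : ℝ} (hβ : 0 ≤ β) (hκ₀ : 0 < κ₀) (hσ : 0 ≤ σ)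
    (A0 R : E →ₗ[ℂ] E) (hR : ∀ u, ‖R u‖ ≤ κ₀⁻¹ * ‖u‖) (L : Finset ι) (e : ι → E)
    (he : ∀ i, ‖e i‖ ≤ 1) (hbes : ∀ v : E, ‖v‖ ≤ 1 → ∑ i ∈ L, ‖inner ℂ (e i) v‖ ^ 2 ≤ 1)
    (hr : 0 ≤ r) (hL : (L.card : ℝ) ≤ r ^ 2)
    (hdec : ∀ v, v = (∑ i ∈ L, inner ℂ (e i) v • e i) + R ((b0 : ℂ) • A0 v + (s0 : ℂ) • v))
    (s d : Z → ℝ) (hs : ∀ z, |s z - s0| ≤ σ) (hd : ∀ z, |d z| ≤ σ)
    (X : Z → E →ₗ[ℂ] E) (hX : GoodOp β K0 X)
    (hXs : ∀ z u, ‖X z u‖ ≤ σ * ‖u‖) (v u : ℕ → Z → E) (hv : ∀ j z, ‖v j z‖ ≤ 1)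
    (hu : ∀ j, Good β cu (u j))
    (heq : ∀ j z, (b0 : ℂ) • A0 (v j z) + (s z : ℂ) • v j z =
      (d z : ℂ) • v (j + 1) z + u j z + X z (v j z)) (J : ℕ)
    (hJ : (κ₀⁻¹ * (3 * σ)) ^ J * Real.sqrt (Fintype.card Z) ≤ β) (j : ℕ) :
    Good β ((r + κ₀⁻¹ * cu) * (∑ j ∈ range J, (κ₀⁻¹ * (K0 + 2 * σ)) ^ j) + 1) (v j) := by
  have hκi : 0 ≤ κ₀⁻¹ := (inv_pos.2 hκ₀).le
  -- the perturbation of the fixed operator
  obtain ⟨P, hP⟩ : ∃ P : Z → E →ₗ[ℂ] E, ∀ z, P z = X z + ((s0 - s z : ℝ) : ℂ) • LinearMap.id :=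
    ⟨_, fun _ => rfl⟩
  have hs1 : ∀ z, ‖((s0 - s z : ℝ) : ℂ)‖ ≤ σ := by
    intro z
    rw [Complex.norm_real, Real.norm_eq_abs, abs_sub_comm]
    exact hs z
  have hd1 : ∀ z, ‖((d z : ℝ) : ℂ)‖ ≤ σ := by
    intro z
    rw [Complex.norm_real, Real.norm_eq_abs]
    exact hd z
  have hPg : GoodOp β (K0 + σ) P := by
    have h2 := goodOp_scalar (β := β) (E := E) hσ (fun z => ((s0 - s z : ℝ) : ℂ)) hs1
    have h3 := hX.add h2
    have h5 : P = fun z => X z + ((s0 - s z : ℝ) : ℂ) • LinearMap.id := funext hP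
    rw [h5]
    exact h3
  have hPs : ∀ z w, ‖P z w‖ ≤ 2 * σ * ‖w‖ := by
    intro z w
    rw [hP]
    simp only [LinearMap.add_apply, LinearMap.smul_apply, LinearMap.id_apply]
    have h1 := norm_add_le (X z w) (((s0 - s z : ℝ) : ℂ) • w)
    have h4 : ‖((s0 - s z : ℝ) : ℂ) • w‖ ≤ σ * ‖w‖ := by
      rw [norm_smul]
      exact mul_le_mul_of_nonneg_right (hs1 z) (norm_nonneg _)
    have h5 := hXs z w
    linarith
  -- the iteration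
  obtain ⟨T, hT⟩ : ∃ T : Z → E →ₗ[ℂ] E, T = fun z => R ∘ₗ P z := ⟨_, rfl⟩
  obtain ⟨D, hD⟩ : ∃ D : Z → E →ₗ[ℂ] E,
    D = fun z => R ∘ₗ (((d z : ℝ) : ℂ) • (LinearMap.id : E →ₗ[ℂ] E)) := ⟨_, rfl⟩
  have hTg : GoodOp β (κ₀⁻¹ * (K0 + σ)) T := by
    rw [hT]
    exact hPg.comp (goodOp_fixed hκi R hR)
  have hDg : GoodOp β (κ₀⁻¹ * σ) D := by
    rw [hD]
    exact (goodOp_scalar (β := β) (E := E) hσ (fun z => ((d z : ℝ) : ℂ)) hd1).comp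
      (goodOp_fixed hκi R hR)
  have hTs : ∀ z w, ‖T z w‖ ≤ κ₀⁻¹ * (2 * σ) * ‖w‖ := by
    intro z w
    rw [hT]
    calc ‖R (P z w)‖ ≤ κ₀⁻¹ * ‖P z w‖ := hR _
      _ ≤ κ₀⁻¹ * (2 * σ * ‖w‖) := mul_le_mul_of_nonneg_left (hPs z w) hκi
      _ = _ := by ring
  have hDs : ∀ z w, ‖D z w‖ ≤ κ₀⁻¹ * σ * ‖w‖ := by
    intro z w
    rw [hD]
    calc ‖R (((d z : ℝ) : ℂ) • w)‖ ≤ κ₀⁻¹ * ‖((d z : ℝ) : ℂ) • w‖ := hR _
      _ ≤ κ₀⁻¹ * (σ * ‖w‖) := by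
          refine mul_le_mul_of_nonneg_left ?_ hκi
          rw [norm_smul]
          exact mul_le_mul_of_nonneg_right (hd1 z) (norm_nonneg _)
      _ = _ := by ring
  have hp : ∀ j, Good β (r + κ₀⁻¹ * cu)
      (fun z => (∑ i ∈ L, inner ℂ (e i) (v j z) • e i) + R (u j z)) := fun j =>
    (good_of_rep hβ (rep_comb L e (fun z i => inner ℂ (e i) (v j z)) hr hL he
      fun z => hbes _ (hv j z))).add ((goodOp_fixed hκi R hR).2 cu (u j) (hu j))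
  have h0 := iterateC (cp := r + κ₀⁻¹ * cu) hβ (by positivity : 0 ≤ κ₀⁻¹ * (2 * σ))
    (by positivity : 0 ≤ κ₀⁻¹ * σ) hTg hDg hTs hDs hp hv (fun j z => ?_) J ?_ j
  · have h1 : κ₀⁻¹ * (K0 + σ) + κ₀⁻¹ * σ = κ₀⁻¹ * (K0 + 2 * σ) := by ring
    rwa [h1] at h0
  · have h1 : (b0 : ℂ) • A0 (v j z) + (s0 : ℂ) • v j z =
        u j z + (P z (v j z) + ((d z : ℝ) : ℂ) • v (j + 1) z) := by
      rw [hP]
      simp only [LinearMap.add_apply, LinearMap.smul_apply, LinearMap.id_apply]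
      have h2 := heq j z
      have h3 : (b0 : ℂ) • A0 (v j z) + (s0 : ℂ) • v j z =
          ((b0 : ℂ) • A0 (v j z) + (s z : ℂ) • v j z) + ((s0 - s z : ℝ) : ℂ) • v j z := by
        push_cast
        module
      rw [h3, h2]
      abel
    conv_lhs => rw [hdec (v j z), h1, map_add, map_add]
    rw [hT, hD]
    simp only [LinearMap.comp_apply, LinearMap.smul_apply, LinearMap.id_apply]
    rw [add_assoc]
  · have h1 : κ₀⁻¹ * (2 * σ) + κ₀⁻¹ * σ = κ₀⁻¹ * (3 * σ) := by ring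
    rw [h1]
    exact hJ

end

end Pool.Agent.H73.BA
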