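import Pool.Agent.H73.BA.Bad
import Pool.Agent.H73.BA.ChainB
import Pool.Agent.H73.AY.Num

/-! The count for one typical formula. -/

namespace Pool.Agent.H73.AY.BI

open Finset Matrix Pool.Agent.H73.QA Pool.Agent.H73.AD Pool.Agent.H73.AZ

theorem two_le_a8 {p r : ℕ} {Γ A : ℝ} (hΓ : 1 ≤ Γ) (hA : 0 ≤ A) : 2 * Γ ≤ a8v p r Γ A := by
  have h1 := MR_one_le p r
  have h2 : 0 ≤ A * (4 : ℝ) ^ (r + 1) := by positivity
  unfold a8v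
  generalize MR p r = M at *
  generalize A * (4 : ℝ) ^ (r + 1) = B at *
  have h3 : 2 * Γ ≤ Γ * (2 + B) := by nlinarith
  have h4 : 0 ≤ Γ * (2 + B) := by nlinarith
  nlinarith

/-- one typical formula and one system of nets -/
theorem one_formula (hLA : LA) {α κ Λ Λ1 L t e ε δ ν σ ρ K1 : ℝ} {Q r : ℕ} (hα : 0 ≤ α)
    (hκ : 0 < κ) (hκ1 : κ ≤ 1)
    (hΛ : 0 ≤ Λ) (hΛ1 : Λ1 = Λ + 1) (hL : 0 ≤ L) (he : 0 < e) (hQ1 : 1 ≤ Q) (hσ0 : 0 < σ)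
    (hσ1 : σ ≤ 1) (hK1 : 1 ≤ K1)
    (hK2 : K1 ≤ 2 ^ (e / 16 * Q))
    (hK3 : (κ / 4)⁻¹ * (16 ^ r * (4 * Λ1 + 12 * (σ / 8)) + 2 * σ) ≤ K1)
    (hθ : (κ / 4)⁻¹ * (3 * σ) ≤ 2 ^ (-(Q : ℝ) / 2))
    (hball : ∀ (n : ℕ) (x : Cube n),
      ((univ.filter fun z => x ∈ hball δ z).card : ℝ) ≤ (2 : ℝ) ^ (e / 16 * n))
    (hρ0 : 0 ≤ ρ) (hρ1 : ρ ≤ σ / 8) (hρ2 : 4 * 2 ^ r * ρ ≤ σ / 2)
    (hs8 : Λ1 * (r * 2 ^ (r + 1)) * ε ≤ κ / 8)
    {k n m : ℕ} (hk1 : Λ1 * (r * 2 ^ (r + 1)) * (ν + 2 / Real.sqrt (2 ^ k)) ≤ σ / 2)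
    (hk2 : Λ * (r * 2 ^ (r + 1)) * (ν + ε + 2 / Real.sqrt (2 ^ k)) ≤ κ / 4)
    (hn1 : 1 * ((n : ℝ) + 1) ≤ 2 ^ (e / 16 * n)) {c : ℝ} (hc0 : 0 < c)
    (hce : c ≤ e / 512) (hcσ : c ≤ σ / 2) (hcκ : c ≤ κ / 8)
    (hn3 : (6 * (r + 1) * 16 ^ r) * ((n : ℝ) + 1) ≤ 2 ^ (e / 512 * n))
    (hn4 : (2 + (L + c) * 4 ^ (r + 1)) * ((n : ℝ) + 1) ≤ 2 ^ (e / 256 * n))
    (hgrd : ∀ β : ℝ, 1 ≤ β → Grd ((r * 2 ^ (r + 1)) * (ν + 2 / Real.sqrt (2 ^ k))) β (L * n)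
      (c * n) (2 ^ (e / 128 * n)) n r)
    {G : Fin m → Clause n k} (hG : Std ε δ ν t r G) {Y : Type} [Fintype Y] [DecidableEq Y]
    {p q : ℕ} {A : Set (Fin p → ℝ)} {K : Type} [DecidableEq K] {Ic : Finset K} {Is : Finset ℤ}
    {cell : (Fin p → ℝ) → K} {bx : K → Fin p → ℝ} {ns : ℝ → ℤ}
    (hN : Nets A Λ1 ρ σ r Ic Is cell bx ns) (hNc : (Ic.card : ℝ) ≤ 2 * 2 ^ (e / 16 * n))
    (hn2 : 4 * 4 * 4 * 4 * 1 * (Is.card : ℝ) ^ 2 *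
      (25 / κ ^ 2 * 16 * K1 ^ 4) * ((6400 * (Λ + 1) * 4 ^ r / σ) / κ) ^ 2 ≤
      2 ^ (e / 16 * n))
    (w : Fin p → List (Letter n m Y)) (T : Fin q → List (Gate n p Y)) (u : ℝ) {N : ℝ}
    (hN0 : 0 ≤ N) (hp : p ≤ (2 : ℝ) ^ (c * n)) (hq : q ≤ (2 : ℝ) ^ (c * n))
    (hw : ∀ i, (w i).length ≤ r ∧ ∀ l ∈ w i, l.Ok t r G)
    (hT : ∀ j, COk t G (L * n) (c * n) N (T j)) :
    (Nat.card {z : Cube n // ¬ BA.Hard α κ Λ t u c A G w T z} : ℝ) ≤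
      (1 + N) ^ 2 * 2 ^ ((α + 2 * u + e) * n) := by
  classical
  have hΛ10 : 0 ≤ Λ1 := by rw [hΛ1]; linarith
  have hA0 : 0 ≤ L * n + c * (n : ℝ) := by positivity
  have ha8 := a8_le (p := p) (r := r) hc0.le hce hL hp hn3 hn4
  have he1 : 0 < e / 16 := by linarith
  -- constants
  obtain ⟨R, hR⟩ : ∃ R : ℝ, R = 2 ^ (α / 2 * n) := ⟨_, rfl⟩
  have hR1 : 1 ≤ R := by rw [hR]; exact Real.one_le_rpow one_le_two (by positivity)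
  have hR2 : R ^ 2 = 2 ^ (α * n) := by
    rw [hR, rpow_sq_n]; congr 2; ring
  obtain ⟨β, hβ⟩ : ∃ β : ℝ, β = 2 ^ (e / 32 * n) := ⟨_, rfl⟩
  have hβ1 : 1 ≤ β := by rw [hβ]; exact Real.one_le_rpow one_le_two (by positivity)
  have hβ2 : β ^ 2 = 2 ^ (e / 16 * n) := by
    rw [hβ, rpow_sq_n]; congr 2; ring
  have hC : CB κ Λ1 δ ν ρ σ β R n k (n / Q + 1) r := by
    refine ⟨hκ, hκ1, hΛ10, hρ0, hσ0.le, by linarith, by linarith,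
      by linarith, by linarith, ?_, fun x => ?_⟩
    · exact (iter_le hQ1 (by positivity) hθ).trans hβ1
    · rw [hβ2]; exact hball n x
  obtain ⟨η, hη⟩ : ∃ η : ℝ, η = κ * (2 : ℝ) ^ (-u * n) / (6400 * (Λ + 1) * 4 ^ r / σ) :=
    ⟨_, rfl⟩
  have hM0 : 0 < 6400 * (Λ + 1) * (4 : ℝ) ^ r / σ := by positivity
  have hη0 : 0 < η := by
    rw [hη]
    have := Real.rpow_pos_of_pos two_pos (-u * n)
    positivity
  obtain ⟨S, hS⟩ : ∃ S : Finset (Cube n), S = univ.filter fun z =>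
      ¬ GoodB α κ Λ1 σ δ η r A G w T z := ⟨_, rfl⟩
  obtain ⟨Γ, hΓ⟩ : ∃ Γ : ℝ, Γ = 2 ^ (e / 128 * n) := ⟨_, rfl⟩
  have hgr := hgrd β hβ1
  rw [← hΓ] at hgr ha8
  have h1 := count_bad (α := α) hC hG hs8 hσ1 w T (fun i => (hw i).2)
    (fun i => (hw i).1) hN0 hT hgr hR2.ge hN hη0 S (fun z hz => by
    rw [hS, mem_filter] at hz
    exact hz.2)
  -- the numbers
  have hn1' : (n : ℝ) + 1 ≤ 2 ^ (e / 16 * n) := by linarith
  have hK3' : (κ / 4)⁻¹ * (16 ^ r * (4 * Λ1 + 12 * ρ) + 2 * σ) ≤ K1 := by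
    refine le_trans (mul_le_mul_of_nonneg_left ?_ (by positivity)) hK3
    have h16 : (0 : ℝ) ≤ 16 ^ r := by positivity
    have := mul_le_mul_of_nonneg_left
      (show 4 * Λ1 + 12 * ρ ≤ 4 * Λ1 + 12 * (σ / 8) by linarith) h16
    linarith
  have hg := AZ.geo_le (e1 := e / 16) (ρ := ρ) n r hκ hΛ10 hρ0 hσ0.le hK1 hK2
    he1.le hK3' hn1'
  have hw1 : (1 : ℝ) ≤ 2 ^ (e / 16 * n) := Real.one_le_rpow one_le_two (by positivity)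
  have hq1 : (q : ℝ) ≤ 2 ^ (e / 16 * n) := by
    refine hq.trans (Real.rpow_le_rpow_of_exponent_le one_le_two ?_)
    exact mul_le_mul_of_nonneg_right (by linarith) (Nat.cast_nonneg _)
  have hint : ((Ic.card : ℝ)) * (Is.card : ℝ) ≤
      ((Ic.card : ℝ) * (Is.card : ℝ)) ^ 2 := by
    have h2 : ∀ x : ℕ, x ≤ x ^ 2 := fun x => Nat.le_self_pow two_ne_zero x
    exact_mod_cast h2 (Ic.card * Is.card)
  have hgeo0 : 0 ≤ AZ.geo κ Λ1 ρ σ r (n / Q + 1) := by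
    unfold AZ.geo
    positivity
  obtain ⟨hb1, hb2, hb3, hb4⟩ := a8_bounds (p := p) (r := r) hgr.one_le hA0 hN0
  have hb3' := two_le_a8 (p := p) (r := r) hgr.one_le hA0
  have hMR0 : 0 ≤ MR p r := zero_le_one.trans (MR_one_le p r)
  have hΓ0 : 0 ≤ Γ := zero_le_one.trans hgr.one_le
  have hAX0 : 0 ≤ AXc p r Γ (L * n + c * n) N := by
    unfold AXc
    positivity
  have hsum := sum_counts' (N0 := Ic.card * Is.card) (q := q) (β := β) (η := η) (R := R)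
    (g := AZ.geo κ Λ1 ρ σ r (n / Q + 1)) (κ := κ) (MRv := MR p r)
    (Γ := 2 * Γ) (a8 := a8v p r Γ (L * n + c * n)) (AX := AXc p r Γ (L * n + c * n) N) (N := N)
    (by positivity) (by positivity) (by linarith)
    (by linarith) hgeo0 hκ hMR0 hb2 (by positivity) hb3' hN0 hAX0 hb4
  have hn5 : 4 * 4 * 4 * 4 * 1 * (Is.card : ℝ) ^ 2 *
      (25 / κ ^ 2 * (a8v p r Γ (L * n + c * n)) ^ 4 * 16 * K1 ^ 4) *
      ((6400 * (Λ + 1) * 4 ^ r / σ) / κ) ^ 2 ≤ 2 ^ (e / 8 * n) := by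
    have k1 : (a8v p r Γ (L * n + c * n)) ^ 4 ≤ 2 ^ (e / 16 * n) := by
      calc (a8v p r Γ (L * n + c * n)) ^ 4 ≤ ((2 : ℝ) ^ (e / 64 * n)) ^ 4 :=
            pow_le_pow_left₀ (by linarith) ha8 4
        _ = 2 ^ (e / 16 * n) := by
            rw [← Real.rpow_natCast, ← Real.rpow_mul two_pos.le]
            congr 1
            push_cast
            ring
    have k2 : (2 : ℝ) ^ (e / 8 * n) = 2 ^ (e / 16 * n) * 2 ^ (e / 16 * n) := by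
      rw [rpow_add_n]
      congr 2
      ring
    rw [k2]
    calc _ = (4 * 4 * 4 * 4 * 1 * (Is.card : ℝ) ^ 2 *
          (25 / κ ^ 2 * 16 * K1 ^ 4) * ((6400 * (Λ + 1) * 4 ^ r / σ) / κ) ^ 2) *
          (a8v p r Γ (L * n + c * n)) ^ 4 := by ring
      _ ≤ _ := mul_le_mul hn2 k1 (by positivity) (by positivity)
  have h2 := AW.final (α := α) (u := u) (e := e) (κ := κ) (K1 := K1) (β := β) (R := R) (η := η)
    (g := AZ.geo κ Λ1 ρ σ r (n / Q + 1)) (Nc := Ic.card)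
    (Nb := (Is.card : ℝ)) (q := q) (n := n) (a8 := a8v p r Γ (L * n + c * n))
    (M := 6400 * (Λ + 1) * 4 ^ r / σ) (X := q + 1)
    (r1 := 1) hκ hκ1 hK1 hβ2.le hR1 hb1 hR2 hM0 hη hgeo0 hg
    (Nat.cast_nonneg _) hNc (by positivity) hint (Nat.cast_nonneg _) (by linarith)
    (by positivity) zero_le_one (by linarith) hn5 he.le
  have h3 : (Nat.card {z : Cube n // ¬ BA.Hard α κ Λ t u c A G w T z} : ℝ) ≤ S.card := by
    have h4 : Nat.card {z : Cube n // ¬ BA.Hard α κ Λ t u c A G w T z} ≤ S.card := by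
      rw [Nat.card_eq_fintype_card, Fintype.card_subtype]
      refine card_le_card fun z hz => ?_
      rw [mem_filter] at hz
      rw [hS, mem_filter]
      refine ⟨mem_univ _, fun hgood => hz.2 ?_⟩
      rw [hη, hΛ1] at hgood
      exact hard_of_goodB hLA hκ hκ1 hΛ hσ0 hσ1 hcσ hcκ hG hk2 w T (fun i => (hw i).2)
        (fun i => (hw i).1) (fun j => (hT j).1) z hgood
    exact_mod_cast h4
  exact h3.trans (h1.trans (hsum.trans (mul_le_mul_of_nonneg_left h2 (by positivity))))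

end Pool.Agent.H73.AY.BI
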