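import Pool.Agent.H73.AD.Good

/-! Bands of symmetric operators: definitions and targets. -/

namespace Pool.Agent.H73.BA

variable {E : Type} [NormedAddCommGroup E] [InnerProductSpace ℂ E]

/-- `V` is a band of `H` around `e` of half-width `ρ`, with gap `g` -/
structure Bnd (H : E →ₗ[ℂ] E) (e ρ g : ℝ) (V : Submodule ℂ E) : Prop where
  inv : ∀ v ∈ V, H v ∈ V
  near : ∀ v ∈ V, ‖H v - (e : ℂ) • v‖ ≤ ρ * ‖v‖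
  far : ∀ v, (∀ w ∈ V, inner ℂ w v = 0) → (ρ + g) * ‖v‖ ≤ ‖H v - (e : ℂ) • v‖

/-- `W` is the spectral subspace of `H` for the interval `[e - d, e + d]` -/
structure Spc (H : E →ₗ[ℂ] E) (e d : ℝ) (W : Submodule ℂ E) : Prop where
  inv : ∀ v ∈ W, H v ∈ W
  near : ∀ v ∈ W, ‖H v - (e : ℂ) • v‖ ≤ d * ‖v‖
  far : ∀ v, (∀ w ∈ W, inner ℂ w v = 0) → d * ‖v‖ ≤ ‖H v - (e : ℂ) • v‖
  res : ∀ u, (∀ w ∈ W, inner ℂ w u = 0) → ∃ v, (∀ w ∈ W, inner ℂ w v = 0) ∧ ‖v‖ ≤ ‖u‖ ∧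
    H v - (e : ℂ) • v = (d : ℂ) • u

/-- spectral subspaces exist -/
def T_SPC : Prop := ∀ (E : Type) [NormedAddCommGroup E] [InnerProductSpace ℂ E]
  [FiniteDimensional ℂ E] (H : E →ₗ[ℂ] E) (_ : H.IsSymmetric) (e d : ℝ), 0 < d →
  ∃ W : Submodule ℂ E, Spc H e d W

/-- sine theta theorem -/
def T_SIN : Prop := ∀ (E : Type) [NormedAddCommGroup E] [InnerProductSpace ℂ E]
  [FiniteDimensional ℂ E] (H H' : E →ₗ[ℂ] E) (_ : H.IsSymmetric) (e e' ρ ρ' g ν : ℝ)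
  (V W : Submodule ℂ E), 0 ≤ ρ → 0 ≤ ρ' → ρ' < ρ + g → 0 ≤ ν → Bnd H e ρ g V →
  (∀ y ∈ W, H' y ∈ W) → (∀ y ∈ W, ‖H' y - (e' : ℂ) • y‖ ≤ ρ' * ‖y‖) →
  (∀ y ∈ W, ‖(H y - (e : ℂ) • y) - (H' y - (e' : ℂ) • y)‖ ≤ ν * ‖y‖) →
  ∀ y ∈ W, ∃ v ∈ V, (∀ w ∈ V, inner ℂ w (y - v) = 0) ∧ (ρ + g - ρ') * ‖y - v‖ ≤ ν * ‖y‖

/-- every vector of `V` is close to a vector of `W` if `W` is not smaller than `V` -/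
def T_SUR : Prop := ∀ (E : Type) [NormedAddCommGroup E] [InnerProductSpace ℂ E]
  [FiniteDimensional ℂ E] (V W : Submodule ℂ E) (ω : ℝ), ω ≤ 1 / 2 →
  Module.finrank ℂ V ≤ Module.finrank ℂ W →
  (∀ y ∈ W, ∃ v ∈ V, (∀ w ∈ V, inner ℂ w (y - v) = 0) ∧ ‖y - v‖ ≤ ω * ‖y‖) →
  ∀ v ∈ V, ∃ y ∈ W, ‖y‖ ≤ 2 * ‖v‖ ∧ ‖y - v‖ ≤ ω * ‖y‖

/-- a unit vector of `V` that is orthogonal to the smaller subspace `W` -/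
def T_ORT : Prop := ∀ (E : Type) [NormedAddCommGroup E] [InnerProductSpace ℂ E]
  [FiniteDimensional ℂ E] (V W : Submodule ℂ E),
  ¬ Module.finrank ℂ V ≤ Module.finrank ℂ W →
  ∃ v ∈ V, ‖v‖ = 1 ∧ ∀ w ∈ W, inner ℂ w v = 0

/-- chains of resolvents have small overlap with a band -/
def T_JMP : Prop := ∀ (E : Type) [NormedAddCommGroup E] [InnerProductSpace ℂ E]
  (H H' : E →ₗ[ℂ] E) (_ : H.IsSymmetric) (e ρ d ν : ℝ) (V : Submodule ℂ E) (q : E) (v : ℕ → E),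
  0 ≤ ρ → ρ < d → 0 ≤ ν → (∀ y ∈ V, H y ∈ V) → (∀ y ∈ V, ‖H y - (e : ℂ) • y‖ ≤ ρ * ‖y‖) →
  ‖q‖ ≤ 1 → (∀ i, ‖v i‖ ≤ 1) → H' (v 0) - (e : ℂ) • v 0 = (d : ℂ) • q →
  (∀ i, H' (v (i + 1)) - (e : ℂ) • v (i + 1) = (d : ℂ) • v i) →
  (∀ i, ‖H' (v i) - H (v i)‖ ≤ ν) → ∀ y ∈ V, (d - ρ) * ‖(inner ℂ y q : ℂ)‖ ≤ ν * ‖y‖

/-- chains in a spectral subspace -/
def T_CHW : Prop := ∀ (E : Type) [NormedAddCommGroup E] [InnerProductSpace ℂ E]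
  (H : E →ₗ[ℂ] E) (e d : ℝ) (W : Submodule ℂ E), 0 < d → Spc H e d W → ∀ y ∈ W, ‖y‖ ≤ 1 →
  ∃ b : ℕ → E, b 0 = y ∧ (∀ i, ‖b i‖ ≤ 1) ∧ ∀ i, H (b i) - (e : ℂ) • b i = (d : ℂ) • b (i + 1)

/-- chains of resolvents, and the projection of the source -/
def T_CHR : Prop := ∀ (E : Type) [NormedAddCommGroup E] [InnerProductSpace ℂ E]
  [FiniteDimensional ℂ E] (H : E →ₗ[ℂ] E) (e d : ℝ) (W : Submodule ℂ E), 0 < d → Spc H e d W →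
  ∀ q : E, ‖q‖ ≤ 1 → ∃ (b : E) (v : ℕ → E), b ∈ W ∧ ‖b‖ ≤ 1 ∧
    (∀ w ∈ W, inner ℂ w (q - b) = 0) ∧ ‖q - b‖ ≤ 1 ∧ (∀ i, ‖v i‖ ≤ 1) ∧
    H (v 0) - (e : ℂ) • v 0 = (d : ℂ) • (q - b) ∧
    ∀ i, H (v (i + 1)) - (e : ℂ) • v (i + 1) = (d : ℂ) • v i

end Pool.Agent.H73.BA
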